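import Pool.Agent.Lib.MP_18867f_lc.TightTest

/-!
# The decision procedure
-/

namespace Pool.Agent.TwoTree

open Pool.Agent.PolyTime Finset

/-- The roots different from `z`. -/
def baseB (s t z : ℕ) : List ℕ := [s, t].filter fun x => !decide (x = z)

/-- Is there a relevant tight set at `z` containing `w`? -/
def conB (n : ℕ) (es : List (ℕ × ℕ × ℕ)) (s t z w : ℕ) : Bool :=
  tightTest n es (baseB s t z) z w

/-- Does `w` lie in all relevant tight sets at `z` containing `r`? -/
def leB (n : ℕ) (es : List (ℕ × ℕ × ℕ)) (s t z w r : ℕ) : Bool :=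
  !tightTest n es (w :: baseB s t z) z r

/-- Is `r` a chosen representative at `z`? -/
def repB (n : ℕ) (es : List (ℕ × ℕ × ℕ)) (s t z r : ℕ) : Bool :=
  !decide (r = z) && (conB n es s t z r && (List.range n).all fun w =>
    decide (w = z) || (!leB n es s t z w r || (leB n es s t z r w && decide (r ≤ w))))

/-- The chosen representatives at `z`. -/
def repsL (n : ℕ) (es : List (ℕ × ℕ × ℕ)) (s t z : ℕ) : List ℕ :=
  (List.range n).filter fun r => repB n es s t z r

/-- The edges at `z` in the minimal relevant tight set of `r`. -/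
def kL (n : ℕ) (es : List (ℕ × ℕ × ℕ)) (s t z r : ℕ) : List ℕ :=
  (es.filter fun e => (decide (e.2.1 = z) && leB n es s t z e.2.2 r) ||
    (decide (e.2.2 = z) && leB n es s t z e.2.1 r)).map fun e => e.1

/-- The edges at `z`. -/
def dL (es : List (ℕ × ℕ × ℕ)) (z : ℕ) : List ℕ :=
  (es.filter fun e => decide (e.2.1 = z) || decide (e.2.2 = z)).map fun e => e.1

/-- The number of edges to be owned. -/
def capN (s t z : ℕ) : ℕ := (if z = s then 0 else 1) + (if z = t then 0 else 1)

/-- The slots at `z`. -/
def slotsL (n : ℕ) (es : List (ℕ × ℕ × ℕ)) (s t z : ℕ) : List (List ℕ) :=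
  ((repsL n es s t z).map fun r => kL n es s t z r) ++
    List.replicate (capN s t z - (repsL n es s t z).length) (dL es z)

/-- The test for one pair of roots. -/
def decPair (n : ℕ) (es : List (ℕ × ℕ × ℕ)) (s t : ℕ) : Bool :=
  sdr (es.map fun e => e.1) ((List.range n).flatMap fun z => slotsL n es s t z)

/-- The decision procedure for graphs. -/
def decG (n : ℕ) (es : List (ℕ × ℕ × ℕ)) : Bool :=
  decide (n = 1) || (List.range n).any fun s => (List.range n).any fun t =>
    !decide (s = t) && decPair n es s t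

/-! ### Correctness -/

section correct

variable {n m : ℕ} {p q : Fin m → Fin n} {s t : Fin n}

/-- The list of all edges. -/
def allE (p q : Fin m → Fin n) : List (ℕ × ℕ × ℕ) := (List.finRange m).map (tri p q)

theorem mem_baseB {z v : Fin n} : v.val ∈ baseB s t z ↔ (v = s ∨ v = t) ∧ v ≠ z := by
  unfold baseB
  simp [List.mem_filter, Fin.ext_iff]

theorem conB_iff (hsp : Sparse p q) {z w : Fin n} (hzw : z ≠ w) :
    conB n (allE p q) s t z w = true ↔ Con p q s t z w := by
  unfold conB allE
  rw [tightTest_iff hsp hzw]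
  constructor
  · rintro ⟨Y, hz, hw, ht, hB⟩
    refine ⟨Y, ⟨hz, ?_, ht, fun v hv hvz => ?_⟩, hw⟩
    · have : ({z, w} : Finset (Fin n)) ⊆ Y := by
        intro x hx
        simp only [mem_insert, mem_singleton] at hx
        rcases hx with rfl | rfl <;> assumption
      have h3 := Finset.card_le_card this
      rwa [Finset.card_pair hzw] at h3
    · have := hB v hv
      rw [mem_baseB] at this
      tauto
  · rintro ⟨Y, ⟨hz, _, ht, hB⟩, hw⟩
    refine ⟨Y, hz, hw, ht, fun v hv => ?_⟩
    rw [mem_baseB]
    rintro ⟨h1, h2⟩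
    have := hB v hv h2
    tauto

theorem leB_iff (hsp : Sparse p q) {z w r : Fin n} (hzr : z ≠ r) :
    leB n (allE p q) s t z w r = true ↔ Le p q s t z w r := by
  unfold leB allE
  rw [Bool.not_eq_true', ← Bool.not_eq_true, tightTest_iff hsp hzr]
  constructor
  · intro h Y hY hr
    by_contra hw
    apply h
    refine ⟨Y, hY.1, hr, hY.2.2.1, fun v hv => ?_⟩
    rw [List.mem_cons, mem_baseB]
    rintro (h1 | ⟨h1, h2⟩)
    · exact hw (Fin.ext h1 ▸ hv)
    · have := hY.2.2.2 v hv h2
      tauto
  · rintro h ⟨Y, hz, hr, ht, hB⟩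
    have hY : Fam p q s t z Y := by
      refine ⟨hz, ?_, ht, fun v hv hvz => ?_⟩
      · have : ({z, r} : Finset (Fin n)) ⊆ Y := by
          intro x hx
          simp only [mem_insert, mem_singleton] at hx
          rcases hx with rfl | rfl <;> assumption
        have h3 := Finset.card_le_card this
        rwa [Finset.card_pair hzr] at h3
      · have := hB v hv
        rw [List.mem_cons, mem_baseB] at this
        tauto
    have := hB w (h Y hY hr)
    simp at this

theorem repB_iff (hsp : Sparse p q) {z r : Fin n} :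
    repB n (allE p q) s t z r = true ↔ Rep p q s t z r := by
  unfold repB Rep
  rw [Bool.and_eq_true, Bool.and_eq_true, List.all_eq_true, Bool.not_eq_true',
    decide_eq_false_iff_not]
  by_cases hrz : r = z
  · subst hrz
    simp
  · have hzr : z ≠ r := fun h => hrz h.symm
    rw [conB_iff hsp hzr]
    constructor
    · rintro ⟨_, h2, h3⟩
      refine ⟨hrz, h2, fun w hwz hw => ?_⟩
      have h4 := h3 w.val (List.mem_range.2 w.isLt)
      rw [Bool.or_eq_true, Bool.or_eq_true, Bool.and_eq_true, decide_eq_true_eq, decide_eq_true_eq,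
        Bool.not_eq_true', ← Bool.not_eq_true, leB_iff hsp hzr, leB_iff hsp hwz.symm] at h4
      rcases h4 with h4 | h4 | h4
      · exact absurd (Fin.ext h4) hwz
      · exact absurd hw h4
      · exact h4
    · rintro ⟨_, h2, h3⟩
      refine ⟨fun h => hrz (Fin.ext h), h2, fun w hw => ?_⟩
      rw [List.mem_range] at hw
      obtain ⟨w', rfl⟩ : ∃ w' : Fin n, w = w'.val := ⟨⟨w, hw⟩, rfl⟩
      rw [Bool.or_eq_true, Bool.or_eq_true, Bool.and_eq_true, decide_eq_true_eq, decide_eq_true_eq,
        Bool.not_eq_true', ← Bool.not_eq_true, leB_iff hsp hzr]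
      by_cases hwz : w' = z
      · exact Or.inl (congrArg Fin.val hwz)
      · rw [leB_iff hsp (fun h => hwz h.symm)]
        by_cases hle : Le p q s t z w' r
        · exact Or.inr (Or.inr (h3 w' hwz hle))
        · exact Or.inr (Or.inl hle)

open Classical in
theorem repsL_eq (hsp : Sparse p q) (z : Fin n) : repsL n (allE p q) s t z =
    ((List.finRange n).filter fun r => decide (Rep p q s t z r)).map Fin.val := by
  unfold repsL
  have h1 : List.range n = (List.finRange n).map Fin.val := by simp
  rw [h1, List.filter_map]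
  congr 1
  apply List.filter_congr
  intro r _
  rw [Function.comp_apply, Bool.eq_iff_iff, repB_iff hsp, decide_eq_true_eq]

theorem mem_kL (hsp : Sparse p q) {z r : Fin n} (hzr : z ≠ r) (x : ℕ) :
    x ∈ kL n (allE p q) s t z r ↔ ∃ e : Fin m, KProp p q s t z r e ∧ e.val = x := by
  unfold kL
  rw [List.mem_map]
  constructor
  · rintro ⟨a, ha, rfl⟩
    obtain ⟨ha1, ha2⟩ := List.mem_filter.1 ha
    obtain ⟨e, _, rfl⟩ := List.mem_map.1 ha1
    refine ⟨e, ?_, rfl⟩
    rw [Bool.or_eq_true, Bool.and_eq_true, Bool.and_eq_true, decide_eq_true_eq,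
      decide_eq_true_eq] at ha2
    unfold tri at ha2
    dsimp only at ha2
    rw [leB_iff hsp hzr, leB_iff hsp hzr] at ha2
    rcases ha2 with h | h
    · exact Or.inl ⟨Fin.ext h.1, h.2⟩
    · exact Or.inr ⟨Fin.ext h.1, h.2⟩
  · rintro ⟨e, he, rfl⟩
    refine ⟨tri p q e, List.mem_filter.2 ⟨List.mem_map.2 ⟨e, List.mem_finRange e, rfl⟩, ?_⟩, rfl⟩
    rw [Bool.or_eq_true, Bool.and_eq_true, Bool.and_eq_true, decide_eq_true_eq,
      decide_eq_true_eq]
    unfold tri
    dsimp only
    rw [leB_iff hsp hzr, leB_iff hsp hzr]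
    rcases he with h | h
    · exact Or.inl ⟨congrArg Fin.val h.1, h.2⟩
    · exact Or.inr ⟨congrArg Fin.val h.1, h.2⟩

theorem mem_dL {z : Fin n} (x : ℕ) :
    x ∈ dL (allE p q) z ↔ ∃ e : Fin m, (p e = z ∨ q e = z) ∧ e.val = x := by
  unfold dL
  rw [List.mem_map]
  constructor
  · rintro ⟨a, ha, rfl⟩
    obtain ⟨ha1, ha2⟩ := List.mem_filter.1 ha
    obtain ⟨e, _, rfl⟩ := List.mem_map.1 ha1
    refine ⟨e, ?_, rfl⟩
    rw [Bool.or_eq_true, decide_eq_true_eq, decide_eq_true_eq] at ha2
    exact ha2.imp (fun h => Fin.ext h) (fun h => Fin.ext h)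
  · rintro ⟨e, he, rfl⟩
    refine ⟨tri p q e, List.mem_filter.2 ⟨List.mem_map.2 ⟨e, List.mem_finRange e, rfl⟩, ?_⟩, rfl⟩
    rw [Bool.or_eq_true, decide_eq_true_eq, decide_eq_true_eq]
    exact he.imp (fun h => congrArg Fin.val h) (fun h => congrArg Fin.val h)

theorem capN_eq (z : Fin n) : capN s t z = cap s t z := by
  unfold capN cap
  simp only [Fin.ext_iff]

/-- A list of numbers represents a set of edges. -/
def Corr (a : List ℕ) (S : Finset (Fin m)) : Prop := ∀ x, x ∈ a ↔ ∃ e ∈ S, e.val = x

theorem sdr_corr {A : List (List ℕ)} {A' : List (Finset (Fin m))} (h : List.Forall₂ Corr A A') :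
    (∃ L : List ℕ, L.Nodup ∧ List.Forall₂ (fun x a => x ∈ a) L A) ↔ Sdr A' := by
  constructor
  · rintro ⟨L, hL, hLA⟩
    have key : ∃ L' : List (Fin m), L'.map Fin.val = L ∧
        List.Forall₂ (fun x a => x ∈ a) L' A' := by
      clear hL
      induction h generalizing L with
      | nil =>
        rw [List.forall₂_nil_right_iff] at hLA
        exact ⟨[], by simp [hLA], List.Forall₂.nil⟩
      | @cons a S A A' haS _ ih =>
        cases hLA with
        | @cons x _ L _ hx hL =>
          obtain ⟨L', hL1, hL2⟩ := ih L hL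
          obtain ⟨e, he, rfl⟩ := (haS x).1 hx
          exact ⟨e :: L', by simp [hL1], List.Forall₂.cons he hL2⟩
    obtain ⟨L', rfl, hL'⟩ := key
    exact ⟨L', List.Nodup.of_map _ hL, hL'⟩
  · rintro ⟨L', hL, hLA⟩
    refine ⟨L'.map Fin.val, hL.map Fin.val_injective, ?_⟩
    rw [List.forall₂_map_left_iff]
    clear hL
    induction h generalizing L' with
    | nil =>
      rw [List.forall₂_nil_right_iff] at hLA
      subst hLA
      exact List.Forall₂.nil
    | @cons a S A A' haS _ ih =>
      cases hLA with
      | @cons x _ L _ hx hL =>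
        exact List.Forall₂.cons ((haS _).2 ⟨x, hx, rfl⟩) (ih L hL)

open Classical in
theorem decPair_iff (hpq : ∀ e, p e ≠ q e) (hsp : Sparse p q) (hst : s ≠ t) (hE : m + 2 = 2 * n) :
    decPair n (allE p q) s t = true ↔ ∃ o, Owner p q s t o := by
  unfold decPair
  obtain ⟨reps, hreps⟩ : ∃ reps : Fin n → List (Fin n), ∀ z, reps z =
    (List.finRange n).filter fun r => decide (Rep p q s t z r) := ⟨_, fun _ => rfl⟩
  obtain ⟨K, hK⟩ : ∃ K : Fin n → Fin n → Finset (Fin m), ∀ z r, K z r =
    univ.filter fun e => KProp p q s t z r e := ⟨_, fun _ _ => rfl⟩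
  obtain ⟨δ, hδ⟩ : ∃ δ : Fin n → Finset (Fin m), ∀ z, δ z =
    univ.filter fun e => p e = z ∨ q e = z := ⟨_, fun _ => rfl⟩
  have hrepsm : ∀ z r, r ∈ reps z ↔ Rep p q s t z r := by
    intro z r
    rw [hreps]
    simp
  have hmain : List.Forall₂ Corr ((List.range n).flatMap fun z => slotsL n (allE p q) s t z)
      ((List.finRange n).flatMap (slotsAt s t reps K δ)) := by
    have h1 : List.range n = (List.finRange n).map Fin.val := by simp
    rw [h1, List.flatMap_map]
    have h2 : ∀ l : List (Fin n), List.Forall₂ Corr (l.flatMap fun z =>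
        slotsL n (allE p q) s t z.val) (l.flatMap (slotsAt s t reps K δ)) := by
      intro l
      induction l with
      | nil => simp
      | cons z l ih =>
        rw [List.flatMap_cons, List.flatMap_cons]
        refine List.rel_append ?_ ih
        unfold slotsL slotsAt
        rw [repsL_eq hsp, ← hreps]
        refine List.rel_append ?_ ?_
        · rw [List.map_map, List.forall₂_map_left_iff, List.forall₂_map_right_iff,
            List.forall₂_same]
          intro r hr x
          have hrz : z ≠ r := ((hrepsm z r).1 hr).1.symm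
          rw [Function.comp_apply, mem_kL hsp hrz, hK]
          simp
        · rw [List.length_map, capN_eq]
          have : ∀ k, List.Forall₂ (Corr (m := m)) (List.replicate k (dL (allE p q) z))
              (List.replicate k (δ z)) := by
            intro k
            induction k with
            | zero => simp
            | succ k ih =>
              rw [List.replicate_succ, List.replicate_succ]
              refine List.Forall₂.cons ?_ ih
              intro x
              rw [mem_dL, hδ]
              simp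
          exact this _
    exact h2 _
  rw [sdr_iff_list, sdr_corr hmain]
  · constructor
    · intro h
      exact exists_owner_of_sdr hpq hsp hst (by simpa using hE) (List.nodup_finRange n)
        (fun v => List.mem_finRange v) hrepsm (fun z r e => by rw [hK]; simp)
        (fun z e => by rw [hδ]; simp) h
    · rintro ⟨o, ho⟩
      exact ho.sdr hpq hsp (List.nodup_finRange n) (fun z => by
        rw [hreps]; exact (List.nodup_finRange n).filter _) hrepsm
        (fun z r e => by rw [hK]; simp) (fun z e => by rw [hδ]; simp)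
  · intro a ha x hx
    have h1 : ∀ {l : List (List ℕ)} {l' : List (Finset (Fin m))}, List.Forall₂ Corr l l' →
        ∀ a ∈ l, ∃ S, Corr (m := m) a S := by
      intro l l' h
      induction h with
      | nil => simp
      | cons hab _ ih =>
        intro a ha
        rcases List.mem_cons.1 ha with rfl | h
        · exact ⟨_, hab⟩
        · exact ih a h
    obtain ⟨S, hS⟩ := h1 hmain a ha
    obtain ⟨e, _, rfl⟩ := (hS x).1 hx
    exact List.mem_map.2 ⟨tri p q e, List.mem_map.2 ⟨e, List.mem_finRange e, rfl⟩, rfl⟩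

theorem decG_iff (hpq : ∀ e, p e ≠ q e) (hsp : Sparse p q) (hE : m + 2 = 2 * n) :
    decG n (allE p q) = true ↔ n = 1 ∨ ∃ s t : Fin n, s ≠ t ∧ ∃ o, Owner p q s t o := by
  unfold decG
  rw [Bool.or_eq_true, decide_eq_true_eq, List.any_eq_true]
  constructor
  · rintro (h | ⟨s, hs, h⟩)
    · exact Or.inl h
    · rw [List.any_eq_true] at h
      obtain ⟨t, ht, h⟩ := h
      rw [Bool.and_eq_true, Bool.not_eq_true', decide_eq_false_iff_not] at h
      rw [List.mem_range] at hs ht
      obtain ⟨s', rfl⟩ : ∃ s' : Fin n, s = s'.val := ⟨⟨s, hs⟩, rfl⟩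
      obtain ⟨t', rfl⟩ : ∃ t' : Fin n, t = t'.val := ⟨⟨t, ht⟩, rfl⟩
      have hst : s' ≠ t' := fun h' => h.1 (congrArg Fin.val h')
      exact Or.inr ⟨s', t', hst, (decPair_iff hpq hsp hst hE).1 h.2⟩
  · rintro (h | ⟨s, t, hst, h⟩)
    · exact Or.inl h
    · right
      refine ⟨s.val, List.mem_range.2 s.isLt, ?_⟩
      rw [List.any_eq_true]
      refine ⟨t.val, List.mem_range.2 t.isLt, ?_⟩
      rw [Bool.and_eq_true, Bool.not_eq_true', decide_eq_false_iff_not]
      exact ⟨fun h' => hst (Fin.ext h'), (decPair_iff hpq hsp hst hE).2 h⟩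

end correct

end Pool.Agent.TwoTree
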