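import Pool.Agent.Lib.MP_18867f_lc.Orient

/-!
# Unions of two spanning trees are sparse
-/

namespace Pool.Agent.TwoTree

open Finset

variable {V E : Type*} [Fintype V] [DecidableEq V] [Fintype E] [DecidableEq E]

/-- The simple graph spanned by a set of edges. -/
def span (p q : E → V) (hpq : ∀ e, p e ≠ q e) (F : Finset E) : SimpleGraph V where
  Adj u v := ∃ e ∈ F, (p e = u ∧ q e = v) ∨ (p e = v ∧ q e = u)
  symm := ⟨by
    rintro u v ⟨e, he, h⟩
    exact ⟨e, he, h.symm⟩⟩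
  loopless := ⟨by
    rintro u ⟨e, _, h⟩
    rcases h with h | h <;> exact hpq e (h.1.trans h.2.symm)⟩

theorem card_tree_inside {p q : E → V} (hpq : ∀ e, p e ≠ q e) {F : Finset E}
    (hc : (span p q hpq F).Connected) (hF : F.card + 1 = Fintype.card V) {X : Finset V}
    (hX : X.Nonempty) : (F.filter fun e => p e ∈ X ∧ q e ∈ X).card + 1 ≤ X.card := by
  classical
  obtain ⟨x0, hx0⟩ := hX
  -- the edges inside `X` are replaced by a star
  obtain ⟨H, hH⟩ : ∃ H : SimpleGraph V, ∀ u v, H.Adj u v ↔ u ≠ v ∧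
      ((∃ e ∈ F, ¬ (p e ∈ X ∧ q e ∈ X) ∧ ((p e = u ∧ q e = v) ∨ (p e = v ∧ q e = u))) ∨
        (u = x0 ∧ v ∈ X) ∨ (v = x0 ∧ u ∈ X)) := by
    refine ⟨⟨fun u v => u ≠ v ∧
      ((∃ e ∈ F, ¬ (p e ∈ X ∧ q e ∈ X) ∧ ((p e = u ∧ q e = v) ∨ (p e = v ∧ q e = u))) ∨
        (u = x0 ∧ v ∈ X) ∨ (v = x0 ∧ u ∈ X)), ⟨?_⟩, ⟨fun u h => h.1 rfl⟩⟩, fun _ _ => Iff.rfl⟩
    rintro u v ⟨h1, h2⟩
    refine ⟨h1.symm, ?_⟩
    rcases h2 with ⟨e, he, he', h3⟩ | h2
    · exact Or.inl ⟨e, he, he', h3.symm⟩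
    · exact Or.inr h2.symm
  have hstar : ∀ v ∈ X, H.Reachable x0 v := by
    intro v hv
    by_cases h : x0 = v
    · subst h; exact SimpleGraph.Reachable.refl _
    · exact SimpleGraph.Adj.reachable ((hH _ _).2 ⟨h, Or.inr (Or.inl ⟨rfl, hv⟩)⟩)
  have hstep : ∀ u v, (span p q hpq F).Adj u v → H.Reachable u v := by
    rintro u v ⟨e, he, h⟩
    by_cases hin : p e ∈ X ∧ q e ∈ X
    · rcases h with ⟨h1, h2⟩ | ⟨h1, h2⟩
      · rw [← h1, ← h2]
        exact (hstar _ hin.1).symm.trans (hstar _ hin.2)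
      · rw [← h1, ← h2]
        exact (hstar _ hin.2).symm.trans (hstar _ hin.1)
    · refine SimpleGraph.Adj.reachable ((hH _ _).2 ⟨?_, Or.inl ⟨e, he, hin, h⟩⟩)
      rcases h with ⟨h1, h2⟩ | ⟨h1, h2⟩
      · rw [← h1, ← h2]; exact hpq e
      · rw [← h1, ← h2]; exact (hpq e).symm
  have hreach : ∀ u v, (span p q hpq F).Reachable u v → H.Reachable u v := by
    rintro u v ⟨w⟩
    induction w with
    | nil => exact SimpleGraph.Reachable.refl _
    | cons h _ ih => exact (hstep _ _ h).trans ih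
  have hHc : H.Connected := by
    rw [SimpleGraph.connected_iff]
    refine ⟨fun u v => hreach u v (hc.preconnected u v), ⟨x0⟩⟩
  have h1 := hHc.card_vert_le_card_edgeSet_add_one
  have h2 : H.edgeSet ⊆ (((F.filter fun e => ¬ (p e ∈ X ∧ q e ∈ X)).image fun e => s(p e, q e)) ∪
      ((X.erase x0).image fun x => s(x0, x)) : Finset (Sym2 V)) := by
    intro a ha
    induction a with
    | _ u v =>
      rw [SimpleGraph.mem_edgeSet, hH] at ha
      rw [mem_coe, mem_union, mem_image, mem_image]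
      obtain ⟨huv, ⟨e, he, he', h3⟩ | ⟨h3, h4⟩ | ⟨h3, h4⟩⟩ := ha
      · left
        refine ⟨e, mem_filter.2 ⟨he, he'⟩, ?_⟩
        rcases h3 with ⟨h4, h5⟩ | ⟨h4, h5⟩
        · rw [h4, h5]
        · rw [h4, h5]; exact Sym2.eq_swap
      · right
        refine ⟨v, mem_erase.2 ⟨fun h => huv (h3.trans h.symm), h4⟩, ?_⟩
        rw [h3]
      · right
        refine ⟨u, mem_erase.2 ⟨fun h => huv (h.trans h3.symm), h4⟩, ?_⟩
        rw [h3]; exact Sym2.eq_swap
  have h3 : Nat.card H.edgeSet ≤ (F.filter fun e => ¬ (p e ∈ X ∧ q e ∈ X)).card +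
      (X.card - 1) := by
    rw [Nat.card_coe_set_eq]
    refine (Set.ncard_le_ncard h2 (Finset.finite_toSet _)).trans ?_
    rw [Set.ncard_coe_finset]
    refine (Finset.card_union_le _ _).trans ?_
    rw [← Finset.card_erase_of_mem hx0]
    exact Nat.add_le_add Finset.card_image_le Finset.card_image_le
  have h4 := Finset.card_filter_add_card_filter_not (s := F) (fun e => p e ∈ X ∧ q e ∈ X)
  rw [Nat.card_eq_fintype_card] at h1
  have h5 : 0 < X.card := Finset.card_pos.2 ⟨x0, hx0⟩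
  omega

theorem sparse_of_two_trees {p q : E → V} (hpq : ∀ e, p e ≠ q e) {F₁ F₂ : Finset E}
    (hu : F₁ ∪ F₂ = univ) (h1 : (span p q hpq F₁).Connected) (h1' : F₁.card + 1 = Fintype.card V)
    (h2 : (span p q hpq F₂).Connected) (h2' : F₂.card + 1 = Fintype.card V) : Sparse p q := by
  intro X hX
  have h3 := card_tree_inside hpq h1 h1' hX
  have h4 := card_tree_inside hpq h2 h2' hX
  have h5 : inside p q X ⊆ (F₁.filter fun e => p e ∈ X ∧ q e ∈ X) ∪
      (F₂.filter fun e => p e ∈ X ∧ q e ∈ X) := by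
    intro e he
    have h6 : e ∈ F₁ ∪ F₂ := by rw [hu]; exact mem_univ e
    rw [mem_inside] at he
    rw [mem_union, mem_filter, mem_filter]
    rcases mem_union.1 h6 with h | h
    · exact Or.inl ⟨h, he⟩
    · exact Or.inr ⟨h, he⟩
  have h6 := (Finset.card_le_card h5).trans (Finset.card_union_le _ _)
  omega

/-! ### Orderings given by permutations -/

theorem goodF_congr {α β : Type*} [LinearOrder α] [LinearOrder β] {p q : E → V} {f : V → α}
    {g : V → β} (h : ∀ u v, f u < f v ↔ g u < g v) (hf : GoodF p q f) : GoodF p q g := by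
  have h1 : head p q f = head p q g := by
    funext e
    unfold head
    simp only [h]
  have h2 : tail p q f = tail p q g := by
    funext e
    unfold tail
    simp only [h]
  unfold GoodF at hf ⊢
  rwa [h1, h2] at hf

theorem exists_perm {n : ℕ} (f : Fin n → ℝ) (hf : Function.Injective f) :
    ∃ σ : Equiv.Perm (Fin n), ∀ u v, f u < f v ↔ σ u < σ v := by
  have hmono : StrictMono (f ∘ Tuple.sort f) :=
    (Tuple.monotone_sort f).strictMono_of_injective (hf.comp (Tuple.sort f).injective)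
  refine ⟨(Tuple.sort f).symm, fun u v => ?_⟩
  have := hmono.lt_iff_lt (a := (Tuple.sort f).symm u) (b := (Tuple.sort f).symm v)
  rw [Function.comp_apply, Function.comp_apply, Equiv.apply_symm_apply,
    Equiv.apply_symm_apply] at this
  exact this

end Pool.Agent.TwoTree
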