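import Pool.Agent.Lib.MP_18867f_lc.StNumber

/-!
# Good orderings and owner assignments
-/

namespace Pool.Agent.TwoTree

open Finset

variable {V E : Type*} [Fintype V] [DecidableEq V] [Fintype E] [DecidableEq E]

/-- The edges inside a vertex set. The two ends of the edge `e` are `p e` and `q e`. -/
def inside (p q : E → V) (X : Finset V) : Finset E := univ.filter fun e => p e ∈ X ∧ q e ∈ X

omit [Fintype V] [DecidableEq E] in
theorem mem_inside {p q : E → V} {X : Finset V} {e : E} :
    e ∈ inside p q X ↔ p e ∈ X ∧ q e ∈ X := by simp [inside]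

/-- Every nonempty vertex set spans at most `2|X| - 2` edges. -/
def Sparse (p q : E → V) : Prop :=
  ∀ X : Finset V, X.Nonempty → (inside p q X).card + 2 ≤ 2 * X.card

/-- A tight set. -/
def Tight (p q : E → V) (Y : Finset V) : Prop := (inside p q Y).card + 2 = 2 * Y.card

/-- The tight sets relevant for `z`. -/
def Fam (p q : E → V) (s t z : V) (Y : Finset V) : Prop :=
  z ∈ Y ∧ 2 ≤ Y.card ∧ Tight p q Y ∧ ∀ v ∈ Y, v ≠ z → v ≠ s ∧ v ≠ t

/-- The number of edges a vertex must own. -/
def cap (s t v : V) : ℕ := (if v = s then 0 else 1) + (if v = t then 0 else 1)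

/-- Owner assignments. -/
structure Owner (p q : E → V) (s t : V) (o : E → V) : Prop where
  mem : ∀ e, o e = p e ∨ o e = q e
  card : ∀ v, (univ.filter fun e => o e = v).card = cap s t v
  hit : ∀ z Y, Fam p q s t z Y → ∃ e ∈ inside p q Y, o e = z

variable {α : Type*} [LinearOrder α]

/-- The later end of an edge. -/
def head (p q : E → V) (f : V → α) (e : E) : V := if f (p e) < f (q e) then q e else p e

/-- The earlier end of an edge. -/
def tail (p q : E → V) (f : V → α) (e : E) : V := if f (p e) < f (q e) then p e else q e

/-- The ordering given by `f` is good. -/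
def GoodF (p q : E → V) (f : V → α) : Prop :=
  ∃ B C : Finset E, Disjoint B C ∧
    (∃ r, ∀ v, (B.filter fun e => head p q f e = v).card = if v = r then 0 else 1) ∧
    (∃ r, ∀ v, (C.filter fun e => tail p q f e = v).card = if v = r then 0 else 1)

variable {p q : E → V}

omit [Fintype V] [DecidableEq V] [Fintype E] [DecidableEq E] in
theorem tail_lt_head (hpq : ∀ e, p e ≠ q e) {f : V → α} (hf : Function.Injective f) (e : E) :
    f (tail p q f e) < f (head p q f e) := by
  unfold tail head
  split_ifs with h
  · exact h
  · exact lt_of_le_of_ne (not_lt.1 h) (fun h' => hpq e (hf h').symm)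

omit [Fintype V] [DecidableEq V] [Fintype E] [DecidableEq E] in
theorem head_tail (f : V → α) (e : E) : (head p q f e = p e ∧ tail p q f e = q e) ∨
    (head p q f e = q e ∧ tail p q f e = p e) := by
  unfold tail head
  split_ifs with h
  · exact Or.inr ⟨rfl, rfl⟩
  · exact Or.inl ⟨rfl, rfl⟩

/-- The edges owned by the vertices of a set avoiding `s` and `t`. -/
theorem Owner.card_owned {s t : V} {o : E → V} (hcard : ∀ v, (univ.filter fun e => o e = v).card =
    cap s t v) (X : Finset V) (hs : s ∉ X) (ht : t ∉ X) :
    (univ.filter fun e => o e ∈ X).card = 2 * X.card := by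
  have h1 : (univ.filter fun e => o e ∈ X).card =
      ∑ v ∈ X, ((univ.filter fun e => o e ∈ X).filter fun e => o e = v).card :=
    Finset.card_eq_sum_card_fiberwise (fun e he => by simpa using he)
  rw [h1, Finset.sum_congr rfl (g := fun _ => 2)]
  · simp [mul_comm]
  · intro v hv
    have h2 : ((univ.filter fun e => o e ∈ X).filter fun e => o e = v) =
        univ.filter fun e => o e = v := by
      ext e
      simp only [mem_filter, mem_univ, true_and]
      constructor
      · exact fun h => h.2
      · rintro rfl; exact ⟨hv, rfl⟩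
    rw [h2, hcard]
    unfold cap
    rw [if_neg (fun h : v = s => hs (h ▸ hv)), if_neg (fun h : v = t => ht (h ▸ hv))]

/-- From a good ordering to an owner assignment. -/
theorem exists_owner (hpq : ∀ e, p e ≠ q e) (hE : Fintype.card E + 2 = 2 * Fintype.card V)
    (hV : 2 ≤ Fintype.card V) {f : V → α} (hf : Function.Injective f) (hgood : GoodF p q f) :
    ∃ s t, s ≠ t ∧ ∃ o, Owner p q s t o := by
  obtain ⟨B, C, hBC, ⟨s, hs⟩, ⟨t, ht⟩⟩ := hgood
  have hne : (univ : Finset V).Nonempty := by
    rw [← Finset.card_pos, Finset.card_univ]; omega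
  have hsum : ∀ r : V, ∑ v : V, (if v = r then 0 else 1) + 1 = Fintype.card V := by
    intro r
    have h1 : ∑ v : V, ((if v = r then 0 else 1) + (if v = r then 1 else 0)) = Fintype.card V := by
      rw [Finset.sum_congr rfl (g := fun _ => 1)]
      · simp
      · intro v _; split_ifs <;> rfl
    rw [Finset.sum_add_distrib] at h1
    simpa using h1
  have hB : B.card + 1 = Fintype.card V := by
    rw [Finset.card_eq_sum_card_fiberwise (t := univ) (f := head p q f)
      (fun e _ => Finset.mem_coe.2 (mem_univ _)), Finset.sum_congr rfl (fun v _ => hs v)]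
    exact hsum s
  have hC : C.card + 1 = Fintype.card V := by
    rw [Finset.card_eq_sum_card_fiberwise (t := univ) (f := tail p q f)
      (fun e _ => Finset.mem_coe.2 (mem_univ _)), Finset.sum_congr rfl (fun v _ => ht v)]
    exact hsum t
  have hunion : B ∪ C = univ := by
    apply Finset.eq_univ_of_card
    rw [Finset.card_union_of_disjoint hBC]
    omega
  -- `s` is the first vertex
  have hsmin : ∀ v, f s ≤ f v := by
    obtain ⟨m, -, hm⟩ := Finset.exists_min_image univ f hne
    have : m = s := by
      by_contra hms
      have h1 := hs m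
      rw [if_neg hms] at h1
      obtain ⟨e, he⟩ := Finset.card_pos.1 (by rw [h1]; exact Nat.one_pos)
      have h2 := tail_lt_head hpq hf e
      rw [(mem_filter.1 he).2] at h2
      exact absurd (hm (tail p q f e) (mem_univ _)) (not_le.2 h2)
    subst this
    exact fun v => hm v (mem_univ _)
  have htmax : ∀ v, f v ≤ f t := by
    obtain ⟨m, -, hm⟩ := Finset.exists_max_image univ f hne
    have : m = t := by
      by_contra hms
      have h1 := ht m
      rw [if_neg hms] at h1
      obtain ⟨e, he⟩ := Finset.card_pos.1 (by rw [h1]; exact Nat.one_pos)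
      have h2 := tail_lt_head hpq hf e
      rw [(mem_filter.1 he).2] at h2
      exact absurd (hm (head p q f e) (mem_univ _)) (not_le.2 h2)
    subst this
    exact fun v => hm v (mem_univ _)
  have hst : s ≠ t := by
    rintro rfl
    have h1 : ∀ v w : V, v = w := fun v w =>
      hf ((le_antisymm (htmax v) (hsmin v)).trans (le_antisymm (htmax w) (hsmin w)).symm)
    have h2 : Fintype.card V ≤ 1 := Fintype.card_le_one_iff.2 h1
    omega
  obtain ⟨o, ho⟩ : ∃ o : E → V, ∀ e, o e = if e ∈ B then head p q f e else tail p q f e :=
    ⟨_, fun _ => rfl⟩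
  have hnotB : ∀ e, e ∉ B ↔ e ∈ C := by
    intro e
    constructor
    · intro he
      have : e ∈ B ∪ C := by rw [hunion]; exact mem_univ e
      exact (mem_union.1 this).resolve_left he
    · intro he heB
      exact Finset.disjoint_left.1 hBC heB he
  have hcard : ∀ v, (univ.filter fun e => o e = v).card = cap s t v := by
    intro v
    have h1 : (univ.filter fun e => o e = v) =
        (B.filter fun e => head p q f e = v) ∪ (C.filter fun e => tail p q f e = v) := by
      ext e
      simp only [mem_filter, mem_univ, true_and, mem_union]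
      rw [ho]
      split_ifs with h
      · constructor
        · exact fun h' => Or.inl ⟨h, h'⟩
        · rintro (h' | h')
          · exact h'.2
          · exact absurd h ((hnotB e).2 h'.1)
      · constructor
        · exact fun h' => Or.inr ⟨(hnotB e).1 h, h'⟩
        · rintro (h' | h')
          · exact absurd h'.1 h
          · exact h'.2
    rw [h1, Finset.card_union_of_disjoint, hs, ht]
    · rfl
    · exact Finset.disjoint_filter_filter hBC
  refine ⟨s, t, hst, o, ⟨fun e => ?_, hcard, ?_⟩⟩
  · rw [ho]
    rcases head_tail (p := p) (q := q) f e with ⟨h1, h2⟩ | ⟨h1, h2⟩ <;> split_ifs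
    · exact Or.inl h1
    · exact Or.inr h2
    · exact Or.inr h1
    · exact Or.inl h2
  · intro z Y hY
    by_contra hcon
    push Not at hcon
    obtain ⟨hzY, hY2, htight, hav⟩ := hY
    obtain ⟨X, hX⟩ : ∃ X, X = Y.erase z := ⟨_, rfl⟩
    have hXs : s ∉ X := by
      intro h; rw [hX, mem_erase] at h; exact (hav s h.2 h.1).1 rfl
    have hXt : t ∉ X := by
      intro h; rw [hX, mem_erase] at h; exact (hav t h.2 h.1).2 rfl
    have hXc : X.card + 1 = Y.card := by
      rw [hX, Finset.card_erase_of_mem hzY]; omega
    have howned := Owner.card_owned hcard X hXs hXt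
    have hmemo : ∀ e, o e = p e ∨ o e = q e := by
      intro e
      rw [ho]
      rcases head_tail (p := p) (q := q) f e with ⟨h1, h2⟩ | ⟨h1, h2⟩ <;> split_ifs
      · exact Or.inl h1
      · exact Or.inr h2
      · exact Or.inr h1
      · exact Or.inl h2
    have hsub : inside p q Y ⊆ univ.filter fun e => o e ∈ X := by
      intro e he
      have h1 := mem_inside.1 he
      simp only [mem_filter, mem_univ, true_and, hX, mem_erase]
      refine ⟨hcon e he, ?_⟩
      rcases hmemo e with h | h <;> rw [h]
      · exact h1.1
      · exact h1.2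
    have heq : inside p q Y = univ.filter fun e => o e ∈ X := by
      apply Finset.eq_of_subset_of_card_le hsub
      rw [howned]
      unfold Tight at htight
      omega
    have hXne : X.Nonempty := by rw [← Finset.card_pos]; omega
    -- an owned edge of a vertex of `X` ends in `Y`
    have hends : ∀ e, o e ∈ X → p e ∈ Y ∧ q e ∈ Y := by
      intro e he
      rw [← mem_inside, heq]
      simpa using he
    obtain ⟨x, hx, hxmin⟩ := Finset.exists_min_image X f hXne
    obtain ⟨x', hx', hxmax⟩ := Finset.exists_max_image X f hXne
    have hlow : f z < f x := by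
      have h1 := hs x
      rw [if_neg (fun h : x = s => hXs (h ▸ hx))] at h1
      obtain ⟨e, he⟩ := Finset.card_pos.1 (by rw [h1]; exact Nat.one_pos)
      obtain ⟨heB, hhe⟩ := mem_filter.1 he
      have h2 := tail_lt_head hpq hf e
      have h3 : o e = x := by rw [ho, if_pos heB]; exact hhe
      have h4 := hends e (by rw [h3]; exact hx)
      have h5 : tail p q f e ∈ Y := by
        rcases head_tail (p := p) (q := q) f e with ⟨_, h⟩ | ⟨_, h⟩ <;> rw [h]
        · exact h4.2
        · exact h4.1
      rw [hhe] at h2
      have h6 : tail p q f e = z := by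
        by_contra hne'
        have : tail p q f e ∈ X := by rw [hX]; exact mem_erase.2 ⟨hne', h5⟩
        exact absurd (hxmin _ this) (not_le.2 h2)
      rwa [h6] at h2
    have hhigh : f x' < f z := by
      have h1 := ht x'
      rw [if_neg (fun h : x' = t => hXt (h ▸ hx'))] at h1
      obtain ⟨e, he⟩ := Finset.card_pos.1 (by rw [h1]; exact Nat.one_pos)
      obtain ⟨heC, hte⟩ := mem_filter.1 he
      have h2 := tail_lt_head hpq hf e
      have h3 : o e = x' := by rw [ho, if_neg ((hnotB e).2 heC)]; exact hte
      have h4 := hends e (by rw [h3]; exact hx')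
      have h5 : head p q f e ∈ Y := by
        rcases head_tail (p := p) (q := q) f e with ⟨h, _⟩ | ⟨h, _⟩ <;> rw [h]
        · exact h4.1
        · exact h4.2
      rw [hte] at h2
      have h6 : head p q f e = z := by
        by_contra hne'
        have : head p q f e ∈ X := by rw [hX]; exact mem_erase.2 ⟨hne', h5⟩
        exact absurd (hxmax _ this) (not_le.2 h2)
      rwa [h6] at h2
    exact absurd (hxmin x' hx') (not_le.2 (hhigh.trans hlow))

/-- From an owner assignment to a good ordering. -/
theorem Owner.exists_good (hpq : ∀ e, p e ≠ q e) (hsp : Sparse p q) {s t : V} (hst : s ≠ t)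
    {o : E → V} (ho : Owner p q s t o) : ∃ f : V → ℝ, Function.Injective f ∧ GoodF p q f := by
  classical
  obtain ⟨h, hh⟩ : ∃ h : E → V, ∀ e, h e = if o e = p e then q e else p e := ⟨_, fun _ => rfl⟩
  have hoh : ∀ e, (o e = p e ∧ h e = q e) ∨ (o e = q e ∧ h e = p e) := by
    intro e
    rw [hh]
    split_ifs with h1
    · exact Or.inl ⟨h1, rfl⟩
    · exact Or.inr ⟨(ho.mem e).resolve_left h1, rfl⟩
  have hne : ∀ e, o e ≠ h e := by
    intro e
    rcases hoh e with ⟨h1, h2⟩ | ⟨h1, h2⟩ <;> rw [h1, h2]
    · exact hpq e
    · exact (hpq e).symm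
  obtain ⟨f0, hf0, hbet0⟩ := exists_numbering (fun v w => ∃ e, o e = v ∧ h e = w) s t hst (by
    intro X hX hsX htX
    by_contra hcon
    push Not at hcon
    -- all arcs leaving `X` have the same head `z`
    obtain ⟨z, hzX, hz⟩ : ∃ z, z ∉ X ∧ ∀ e, o e ∈ X → h e ∈ X ∨ h e = z := by
      by_cases hex : ∃ e, o e ∈ X ∧ h e ∉ X
      · obtain ⟨e, he, he'⟩ := hex
        refine ⟨h e, he', fun e' he'' => ?_⟩
        by_contra hcon'
        push Not at hcon'
        exact hcon'.2 (hcon (o e) he (h e) (o e') he'' (h e') ⟨e, rfl, rfl⟩ ⟨e', rfl, rfl⟩ he'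
          hcon'.1).symm
      · push Not at hex
        exact ⟨s, hsX, fun e he => Or.inl (hex e he)⟩
    obtain ⟨X', hX'⟩ : ∃ X' : Finset V, ∀ v, v ∈ X' ↔ v ∈ X := ⟨X.toFinset, by simp⟩
    have hzX' : z ∉ X' := by rwa [hX']
    have howned := Owner.card_owned ho.card X' (by rwa [hX']) (by rwa [hX'])
    have hsub : (univ.filter fun e => o e ∈ X') ⊆ inside p q (insert z X') := by
      intro e he
      simp only [mem_filter, mem_univ, true_and] at he
      have h1 := hz e ((hX' _).1 he)
      rw [← hX'] at h1
      have h2 : h e ∈ insert z X' := by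
        rw [mem_insert]; exact h1.symm
      have h3 : o e ∈ insert z X' := mem_insert_of_mem he
      rw [mem_inside]
      rcases hoh e with ⟨h4, h5⟩ | ⟨h4, h5⟩ <;> rw [← h4, ← h5]
      · exact ⟨h3, h2⟩
      · exact ⟨h2, h3⟩
    have hcY : (insert z X').card = X'.card + 1 := Finset.card_insert_of_notMem hzX'
    have hspY := hsp (insert z X') ⟨z, mem_insert_self _ _⟩
    have hle := Finset.card_le_card hsub
    have heq : (univ.filter fun e => o e ∈ X') = inside p q (insert z X') :=
      Finset.eq_of_subset_of_card_le hsub (by omega)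
    have hXne : 0 < X'.card := by
      obtain ⟨v, hv⟩ := hX
      exact Finset.card_pos.2 ⟨v, (hX' v).2 hv⟩
    obtain ⟨e, he, hoe⟩ := ho.hit z (insert z X') ⟨mem_insert_self _ _, by omega,
      by unfold Tight; omega, fun v hv hvz => by
        have : v ∈ X := (hX' v).1 ((mem_insert.1 hv).resolve_left hvz)
        exact ⟨fun h => hsX (h ▸ this), fun h => htX (h ▸ this)⟩⟩
    rw [← heq] at he
    simp only [mem_filter, mem_univ, true_and] at he
    rw [hoe] at he
    exact hzX' he)
  -- make `s` the first vertex
  obtain ⟨f, hf, hfst, hbet⟩ : ∃ f : V → ℝ, Function.Injective f ∧ f s < f t ∧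
      ∀ v, v ≠ s → v ≠ t → (∃ w, (∃ e, o e = v ∧ h e = w) ∧ f w < f v) ∧
        ∃ w, (∃ e, o e = v ∧ h e = w) ∧ f v < f w := by
    rcases lt_or_gt_of_ne (fun h' => hst (hf0 h') : f0 s ≠ f0 t) with h1 | h1
    · exact ⟨f0, hf0, h1, hbet0⟩
    · refine ⟨fun v => - f0 v, fun a b hab => hf0 (neg_injective hab), by simpa using h1, ?_⟩
      intro v hvs hvt
      obtain ⟨⟨w, hw, hw'⟩, ⟨x, hx, hx'⟩⟩ := hbet0 v hvs hvt
      exact ⟨⟨x, hx, by simpa using hx'⟩, ⟨w, hw, by simpa using hw'⟩⟩
  have hnonempty : (univ : Finset V).Nonempty := ⟨s, mem_univ s⟩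
  have hsmin : ∀ v, f s ≤ f v := by
    obtain ⟨m, -, hm⟩ := Finset.exists_min_image univ f hnonempty
    have : m = s := by
      by_contra hms
      by_cases hmt : m = t
      · subst hmt
        exact absurd (hm s (mem_univ _)) (not_le.2 hfst)
      · obtain ⟨⟨w, _, hw⟩, _⟩ := hbet m hms hmt
        exact absurd (hm w (mem_univ _)) (not_le.2 hw)
    subst this
    exact fun v => hm v (mem_univ _)
  have htmax : ∀ v, f v ≤ f t := by
    obtain ⟨m, -, hm⟩ := Finset.exists_max_image univ f hnonempty
    have : m = t := by
      by_contra hmt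
      by_cases hms : m = s
      · subst hms
        exact absurd (hm t (mem_univ _)) (not_le.2 hfst)
      · obtain ⟨_, ⟨w, _, hw⟩⟩ := hbet m hms hmt
        exact absurd (hm w (mem_univ _)) (not_le.2 hw)
    subst this
    exact fun v => hm v (mem_univ _)
  have hhead : ∀ e, o e = head p q f e ↔ f (h e) < f (o e) := by
    intro e
    have h1 := tail_lt_head hpq hf e
    rcases head_tail (p := p) (q := q) f e with ⟨h2, h3⟩ | ⟨h2, h3⟩ <;>
      rcases hoh e with ⟨h4, h5⟩ | ⟨h4, h5⟩ <;> rw [h2, h3] at h1 <;> rw [h2, h4, h5]
    · simp [h1]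
    · simp only [(hpq e).symm, false_iff, not_lt]
      exact h1.le
    · simp only [hpq e, false_iff, not_lt]
      exact h1.le
    · simp [h1]
  have htail : ∀ e, o e = tail p q f e ↔ f (o e) < f (h e) := by
    intro e
    have h1 := tail_lt_head hpq hf e
    rcases head_tail (p := p) (q := q) f e with ⟨h2, h3⟩ | ⟨h2, h3⟩ <;>
      rcases hoh e with ⟨h4, h5⟩ | ⟨h4, h5⟩ <;> rw [h2, h3] at h1 <;> rw [h3, h4, h5]
    · simp only [hpq e, false_iff, not_lt]
      exact h1.le
    · simp [h1]
    · simp [h1]
    · simp only [(hpq e).symm, false_iff, not_lt]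
      exact h1.le
  refine ⟨f, hf, univ.filter fun e => o e = head p q f e, univ.filter fun e => o e = tail p q f e,
    ?_, ⟨s, fun v => ?_⟩, ⟨t, fun v => ?_⟩⟩
  · rw [Finset.disjoint_left]
    intro e h1 h2
    simp only [mem_filter, mem_univ, true_and] at h1 h2
    have h3 := tail_lt_head hpq hf e
    rw [← h1, ← h2] at h3
    exact lt_irrefl _ h3
  · have h1 : ((univ.filter fun e => o e = head p q f e).filter fun e => head p q f e = v) =
        (univ.filter fun e => o e = v).filter fun e => f (h e) < f (o e) := by
      ext e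
      simp only [mem_filter, mem_univ, true_and]
      rw [← hhead]
      constructor
      · rintro ⟨h1, h2⟩; exact ⟨h1.trans h2, h1⟩
      · rintro ⟨h1, h2⟩; exact ⟨h2, h2.symm.trans h1⟩
    rw [h1]
    have hc := ho.card v
    by_cases hvs : v = s
    · rw [if_pos hvs, Finset.card_eq_zero, Finset.filter_eq_empty_iff]
      intro e he
      simp only [mem_filter, mem_univ, true_and] at he
      rw [he, hvs, not_lt]
      exact hsmin _
    · rw [if_neg hvs]
      by_cases hvt : v = t
      · have h2 : ((univ.filter fun e => o e = v).filter fun e => f (h e) < f (o e)) =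
            univ.filter fun e => o e = v := by
          rw [Finset.filter_eq_self]
          intro e he
          simp only [mem_filter, mem_univ, true_and] at he
          have h3 : h e ≠ t := fun h4 => hne e (by rw [he, h4, hvt])
          rw [he, hvt]
          exact lt_of_le_of_ne (htmax _) (fun h4 => h3 (hf h4))
        rw [h2, hc]
        unfold cap
        rw [if_neg hvs, if_pos hvt]
      · obtain ⟨⟨w, ⟨e1, he1, hw1⟩, hlt1⟩, ⟨w', ⟨e2, he2, hw2⟩, hlt2⟩⟩ := hbet v hvs hvt
        have hne12 : e1 ≠ e2 := by
          rintro rfl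
          rw [hw1] at hw2
          subst hw2
          exact absurd hlt1 (not_lt.2 hlt2.le)
        have h2 : (univ.filter fun e => o e = v) = {e1, e2} := by
          symm
          apply Finset.eq_of_subset_of_card_le
          · intro e he
            simp only [mem_insert, mem_singleton] at he
            rcases he with rfl | rfl <;> simp [he1, he2]
          · rw [hc, Finset.card_pair hne12]
            unfold cap
            rw [if_neg hvs, if_neg hvt]
        rw [h2, Finset.card_eq_one]
        refine ⟨e1, ?_⟩
        ext e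
        simp only [mem_filter, mem_insert, mem_singleton]
        constructor
        · rintro ⟨rfl | rfl, h3⟩
          · rfl
          · exfalso
            rw [he2, hw2] at h3
            exact absurd h3 (not_lt.2 hlt2.le)
        · rintro rfl
          exact ⟨Or.inl rfl, by rw [he1, hw1]; exact hlt1⟩
  · have h1 : ((univ.filter fun e => o e = tail p q f e).filter fun e => tail p q f e = v) =
        (univ.filter fun e => o e = v).filter fun e => f (o e) < f (h e) := by
      ext e
      simp only [mem_filter, mem_univ, true_and]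
      rw [← htail]
      constructor
      · rintro ⟨h1, h2⟩; exact ⟨h1.trans h2, h1⟩
      · rintro ⟨h1, h2⟩; exact ⟨h2, h2.symm.trans h1⟩
    rw [h1]
    have hc := ho.card v
    by_cases hvt : v = t
    · rw [if_pos hvt, Finset.card_eq_zero, Finset.filter_eq_empty_iff]
      intro e he
      simp only [mem_filter, mem_univ, true_and] at he
      rw [he, hvt, not_lt]
      exact htmax _
    · rw [if_neg hvt]
      by_cases hvs : v = s
      · have h2 : ((univ.filter fun e => o e = v).filter fun e => f (o e) < f (h e)) =
            univ.filter fun e => o e = v := by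
          rw [Finset.filter_eq_self]
          intro e he
          simp only [mem_filter, mem_univ, true_and] at he
          have h3 : h e ≠ s := fun h4 => hne e (by rw [he, h4, hvs])
          rw [he, hvs]
          exact lt_of_le_of_ne (hsmin _) (fun h4 => h3 (hf h4.symm))
        rw [h2, hc]
        unfold cap
        rw [if_pos hvs, if_neg hvt]
      · obtain ⟨⟨w, ⟨e1, he1, hw1⟩, hlt1⟩, ⟨w', ⟨e2, he2, hw2⟩, hlt2⟩⟩ := hbet v hvs hvt
        have hne12 : e1 ≠ e2 := by
          rintro rfl
          rw [hw1] at hw2
          subst hw2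
          exact absurd hlt1 (not_lt.2 hlt2.le)
        have h2 : (univ.filter fun e => o e = v) = {e1, e2} := by
          symm
          apply Finset.eq_of_subset_of_card_le
          · intro e he
            simp only [mem_insert, mem_singleton] at he
            rcases he with rfl | rfl <;> simp [he1, he2]
          · rw [hc, Finset.card_pair hne12]
            unfold cap
            rw [if_neg hvs, if_neg hvt]
        rw [h2, Finset.card_eq_one]
        refine ⟨e2, ?_⟩
        ext e
        simp only [mem_filter, mem_insert, mem_singleton]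
        constructor
        · rintro ⟨rfl | rfl, h3⟩
          · exfalso
            rw [he1, hw1] at h3
            exact absurd h3 (not_lt.2 hlt1.le)
          · rfl
        · rintro rfl
          exact ⟨Or.inr rfl, by rw [he2, hw2]; exact hlt2⟩

end Pool.Agent.TwoTree
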