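import Pool.Agent.Lib.MP_18867f_lc.Alg

/-!
# Polynomial time, and the encoding
-/

namespace Pool.Agent.TwoTree

open Pool.Agent.PolyTime

variable {γ : Type} [Enc γ]

theorem poly_vslots {z v : γ → ℕ} (hz : PolyFn z) (hv : PolyFn v) :
    PolyFn (fun c => vslots (z c) (v c)) :=
  PolyFn.ite (PolyFn.decide_eq_nat hv hz) (PolyFn.const [])
    (PolyFn.cons (PolyFn.mul (PolyFn.const 2) hv)
      (PolyFn.cons (PolyFn.succ (PolyFn.mul (PolyFn.const 2) hv)) (PolyFn.const [])))

theorem poly_eslots {z : γ → ℕ} {e : γ → ℕ × ℕ × ℕ} (hz : PolyFn z) (he : PolyFn e) :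
    PolyFn (fun c => eslots (z c) (e c)) :=
  PolyFn.append (poly_vslots hz (PolyFn.fst.comp (PolyFn.snd.comp he)))
    (poly_vslots hz (PolyFn.snd.comp (PolyFn.snd.comp he)))

theorem poly_avoid {B : γ → List ℕ} {es : γ → List (ℕ × ℕ × ℕ)} (hB : PolyFn B)
    (hes : PolyFn es) : PolyFn (fun c => avoid (B c) (es c)) :=
  PolyFn.filter (p := fun c (e : ℕ × ℕ × ℕ) =>
      !decide (e.2.1 ∈ B c) && !decide (e.2.2 ∈ B c))
    (PolyFn.and (PolyFn.not (PolyFn.decide_mem (hB.comp PolyFn.fst)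
      (PolyFn.fst.comp (PolyFn.snd.comp PolyFn.snd))))
      (PolyFn.not (PolyFn.decide_mem (hB.comp PolyFn.fst)
        (PolyFn.snd.comp (PolyFn.snd.comp PolyFn.snd))))) hes

theorem poly_tightTest {n : γ → ℕ} {es : γ → List (ℕ × ℕ × ℕ)} {B : γ → List ℕ} {z w : γ → ℕ}
    (hn : PolyFn n) (hes : PolyFn es) (hB : PolyFn B) (hz : PolyFn z) (hw : PolyFn w) :
    PolyFn (fun c => tightTest (n c) (es c) (B c) (z c) (w c)) :=
  PolyFn.and (PolyFn.not (PolyFn.decide_mem hB hz))
    (PolyFn.and (PolyFn.not (PolyFn.decide_mem hB hw))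
      (PolyFn.not (PolyFn.sdr (PolyFn.range (PolyFn.mul (PolyFn.const 2) hn))
        (PolyFn.cons (poly_vslots hz hw) (PolyFn.map (f := fun c e => eslots (z c) e)
          (poly_eslots (hz.comp PolyFn.fst) PolyFn.snd) (poly_avoid hB hes))))))

theorem poly_baseB {s t z : γ → ℕ} (hs : PolyFn s) (ht : PolyFn t) (hz : PolyFn z) :
    PolyFn (fun c => baseB (s c) (t c) (z c)) :=
  PolyFn.filter (p := fun c x => !decide (x = z c))
    (PolyFn.not (PolyFn.decide_eq_nat PolyFn.snd (hz.comp PolyFn.fst)))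
    (PolyFn.cons hs (PolyFn.cons ht (PolyFn.const [])))

theorem poly_conB {n : γ → ℕ} {es : γ → List (ℕ × ℕ × ℕ)} {s t z w : γ → ℕ}
    (hn : PolyFn n) (hes : PolyFn es) (hs : PolyFn s) (ht : PolyFn t) (hz : PolyFn z)
    (hw : PolyFn w) : PolyFn (fun c => conB (n c) (es c) (s c) (t c) (z c) (w c)) :=
  poly_tightTest hn hes (poly_baseB hs ht hz) hz hw

theorem poly_leB {n : γ → ℕ} {es : γ → List (ℕ × ℕ × ℕ)} {s t z w r : γ → ℕ}
    (hn : PolyFn n) (hes : PolyFn es) (hs : PolyFn s) (ht : PolyFn t) (hz : PolyFn z)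
    (hw : PolyFn w) (hr : PolyFn r) :
    PolyFn (fun c => leB (n c) (es c) (s c) (t c) (z c) (w c) (r c)) :=
  PolyFn.not (poly_tightTest hn hes (PolyFn.cons hw (poly_baseB hs ht hz)) hz hr)

theorem poly_repB {n : γ → ℕ} {es : γ → List (ℕ × ℕ × ℕ)} {s t z r : γ → ℕ}
    (hn : PolyFn n) (hes : PolyFn es) (hs : PolyFn s) (ht : PolyFn t) (hz : PolyFn z)
    (hr : PolyFn r) :
    PolyFn (fun c => repB (n c) (es c) (s c) (t c) (z c) (r c)) := by
  refine PolyFn.and (PolyFn.not (PolyFn.decide_eq_nat hr hz))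
    (PolyFn.and (poly_conB hn hes hs ht hz hr) (PolyFn.all (p := fun c w =>
      decide (w = z c) || (!leB (n c) (es c) (s c) (t c) (z c) w (r c) ||
        (leB (n c) (es c) (s c) (t c) (z c) (r c) w && decide (r c ≤ w)))) ?_
      (PolyFn.range hn)))
  have hn' : PolyFn (fun c : γ × ℕ => n c.1) := hn.comp PolyFn.fst
  have hes' : PolyFn (fun c : γ × ℕ => es c.1) := hes.comp PolyFn.fst
  have hs' : PolyFn (fun c : γ × ℕ => s c.1) := hs.comp PolyFn.fst
  have ht' : PolyFn (fun c : γ × ℕ => t c.1) := ht.comp PolyFn.fst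
  have hz' : PolyFn (fun c : γ × ℕ => z c.1) := hz.comp PolyFn.fst
  have hr' : PolyFn (fun c : γ × ℕ => r c.1) := hr.comp PolyFn.fst
  exact PolyFn.or (PolyFn.decide_eq_nat PolyFn.snd hz')
    (PolyFn.or (PolyFn.not (poly_leB hn' hes' hs' ht' hz' PolyFn.snd hr'))
      (PolyFn.and (poly_leB hn' hes' hs' ht' hz' hr' PolyFn.snd)
        (PolyFn.decide_le hr' PolyFn.snd)))

theorem poly_repsL {n : γ → ℕ} {es : γ → List (ℕ × ℕ × ℕ)} {s t z : γ → ℕ}
    (hn : PolyFn n) (hes : PolyFn es) (hs : PolyFn s) (ht : PolyFn t) (hz : PolyFn z) :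
    PolyFn (fun c => repsL (n c) (es c) (s c) (t c) (z c)) :=
  PolyFn.filter (p := fun c r => repB (n c) (es c) (s c) (t c) (z c) r)
    (poly_repB (hn.comp PolyFn.fst) (hes.comp PolyFn.fst) (hs.comp PolyFn.fst)
      (ht.comp PolyFn.fst) (hz.comp PolyFn.fst) PolyFn.snd) (PolyFn.range hn)

theorem poly_kL {n : γ → ℕ} {es : γ → List (ℕ × ℕ × ℕ)} {s t z r : γ → ℕ}
    (hn : PolyFn n) (hes : PolyFn es) (hs : PolyFn s) (ht : PolyFn t) (hz : PolyFn z)
    (hr : PolyFn r) :
    PolyFn (fun c => kL (n c) (es c) (s c) (t c) (z c) (r c)) := by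
  refine PolyFn.map (f := fun _ (e : ℕ × ℕ × ℕ) => e.1) (PolyFn.fst.comp PolyFn.snd)
    (PolyFn.filter (p := fun c (e : ℕ × ℕ × ℕ) =>
      (decide (e.2.1 = z c) && leB (n c) (es c) (s c) (t c) (z c) e.2.2 (r c)) ||
      (decide (e.2.2 = z c) && leB (n c) (es c) (s c) (t c) (z c) e.2.1 (r c))) ?_ hes)
  have hn' : PolyFn (fun c : γ × (ℕ × ℕ × ℕ) => n c.1) := hn.comp PolyFn.fst
  have hes' : PolyFn (fun c : γ × (ℕ × ℕ × ℕ) => es c.1) := hes.comp PolyFn.fst
  have hs' : PolyFn (fun c : γ × (ℕ × ℕ × ℕ) => s c.1) := hs.comp PolyFn.fst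
  have ht' : PolyFn (fun c : γ × (ℕ × ℕ × ℕ) => t c.1) := ht.comp PolyFn.fst
  have hz' : PolyFn (fun c : γ × (ℕ × ℕ × ℕ) => z c.1) := hz.comp PolyFn.fst
  have hr' : PolyFn (fun c : γ × (ℕ × ℕ × ℕ) => r c.1) := hr.comp PolyFn.fst
  have h1 : PolyFn (fun c : γ × (ℕ × ℕ × ℕ) => c.2.2.1) :=
    PolyFn.fst.comp (PolyFn.snd.comp PolyFn.snd)
  have h2 : PolyFn (fun c : γ × (ℕ × ℕ × ℕ) => c.2.2.2) :=
    PolyFn.snd.comp (PolyFn.snd.comp PolyFn.snd)
  exact PolyFn.or (PolyFn.and (PolyFn.decide_eq_nat h1 hz')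
      (poly_leB hn' hes' hs' ht' hz' h2 hr'))
    (PolyFn.and (PolyFn.decide_eq_nat h2 hz') (poly_leB hn' hes' hs' ht' hz' h1 hr'))

theorem poly_dL {es : γ → List (ℕ × ℕ × ℕ)} {z : γ → ℕ} (hes : PolyFn es) (hz : PolyFn z) :
    PolyFn (fun c => dL (es c) (z c)) := by
  refine PolyFn.map (f := fun _ (e : ℕ × ℕ × ℕ) => e.1) (PolyFn.fst.comp PolyFn.snd)
    (PolyFn.filter (p := fun c (e : ℕ × ℕ × ℕ) =>
      decide (e.2.1 = z c) || decide (e.2.2 = z c)) ?_ hes)
  have hz' : PolyFn (fun c : γ × (ℕ × ℕ × ℕ) => z c.1) := hz.comp PolyFn.fst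
  exact PolyFn.or (PolyFn.decide_eq_nat (PolyFn.fst.comp (PolyFn.snd.comp PolyFn.snd)) hz')
    (PolyFn.decide_eq_nat (PolyFn.snd.comp (PolyFn.snd.comp PolyFn.snd)) hz')

theorem poly_capN {s t z : γ → ℕ} (hs : PolyFn s) (ht : PolyFn t) (hz : PolyFn z) :
    PolyFn (fun c => capN (s c) (t c) (z c)) :=
  PolyFn.add (PolyFn.ite (PolyFn.decide_eq_nat hz hs) (PolyFn.const 0) (PolyFn.const 1))
    (PolyFn.ite (PolyFn.decide_eq_nat hz ht) (PolyFn.const 0) (PolyFn.const 1))

theorem poly_slotsL {n : γ → ℕ} {es : γ → List (ℕ × ℕ × ℕ)} {s t z : γ → ℕ}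
    (hn : PolyFn n) (hes : PolyFn es) (hs : PolyFn s) (ht : PolyFn t) (hz : PolyFn z) :
    PolyFn (fun c => slotsL (n c) (es c) (s c) (t c) (z c)) :=
  PolyFn.append (PolyFn.map (f := fun c r => kL (n c) (es c) (s c) (t c) (z c) r)
      (poly_kL (hn.comp PolyFn.fst) (hes.comp PolyFn.fst) (hs.comp PolyFn.fst)
        (ht.comp PolyFn.fst) (hz.comp PolyFn.fst) PolyFn.snd) (poly_repsL hn hes hs ht hz))
    (PolyFn.replicate (PolyFn.sub (poly_capN hs ht hz)
      (PolyFn.length (poly_repsL hn hes hs ht hz))) (poly_dL hes hz))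

theorem poly_decPair {n : γ → ℕ} {es : γ → List (ℕ × ℕ × ℕ)} {s t : γ → ℕ}
    (hn : PolyFn n) (hes : PolyFn es) (hs : PolyFn s) (ht : PolyFn t) :
    PolyFn (fun c => decPair (n c) (es c) (s c) (t c)) :=
  PolyFn.sdr (PolyFn.map (f := fun _ (e : ℕ × ℕ × ℕ) => e.1) (PolyFn.fst.comp PolyFn.snd) hes)
    (PolyFn.flatMap (f := fun c z => slotsL (n c) (es c) (s c) (t c) z)
      (poly_slotsL (hn.comp PolyFn.fst) (hes.comp PolyFn.fst) (hs.comp PolyFn.fst)
        (ht.comp PolyFn.fst) PolyFn.snd) (PolyFn.range hn))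

theorem poly_decG {n : γ → ℕ} {es : γ → List (ℕ × ℕ × ℕ)} (hn : PolyFn n) (hes : PolyFn es) :
    PolyFn (fun c => decG (n c) (es c)) := by
  refine PolyFn.or (PolyFn.decide_eq_nat hn (PolyFn.const 1))
    (PolyFn.any (p := fun c s => (List.range (n c)).any fun t =>
      !decide (s = t) && decPair (n c) (es c) s t) ?_ (PolyFn.range hn))
  refine PolyFn.any (γ := γ × ℕ) (p := fun c t => !decide (c.2 = t) &&
    decPair (n c.1) (es c.1) c.2 t) ?_ (PolyFn.range (hn.comp PolyFn.fst))
  have h1 : PolyFn (fun c : (γ × ℕ) × ℕ => n c.1.1) := hn.comp (PolyFn.fst.comp PolyFn.fst)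
  have h2 : PolyFn (fun c : (γ × ℕ) × ℕ => es c.1.1) := hes.comp (PolyFn.fst.comp PolyFn.fst)
  have h3 : PolyFn (fun c : (γ × ℕ) × ℕ => c.1.2) := PolyFn.snd.comp PolyFn.fst
  exact PolyFn.and (PolyFn.not (PolyFn.decide_eq_nat h3 PolyFn.snd))
    (poly_decPair h1 h2 h3 PolyFn.snd)

/-! ### Parsing -/

/-- Reading an edge. -/
def parseEdge (cap : ℕ) (w : List (Option Bool)) : ℕ × ℕ :=
  (capVal cap ((blocks w).headD []), capVal cap ((blocks w).tail.headD []))

/-- The decision procedure on the list of blocks of the input. -/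
def decW (bs : List (List (Option Bool))) : Bool :=
  match bs with
  | [] => false
  | w0 :: ws => decG (capVal (ws.length + 1) ((blocks w0).headD []))
      ((List.range ws.length).zip (ws.map fun w => parseEdge (ws.length + 1) w))

theorem poly_parseEdge {cap : γ → ℕ} {w : γ → List (Option Bool)} (hc : PolyFn cap)
    (hw : PolyFn w) : PolyFn (fun c => parseEdge (cap c) (w c)) :=
  (PolyFn.capVal hc (PolyFn.headD (PolyFn.blocks hw) (PolyFn.const []))).pair
    (PolyFn.capVal hc (PolyFn.headD (PolyFn.tail (PolyFn.blocks hw)) (PolyFn.const [])))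

theorem poly_decW : PolyFn decW := by
  refine PolyFn.listCase (l := fun bs : List (List (Option Bool)) => bs) (f := fun _ => false)
    (g := fun _ w0 ws => decG (capVal (ws.length + 1) ((blocks w0).headD []))
      ((List.range ws.length).zip (ws.map fun w => parseEdge (ws.length + 1) w)))
    PolyFn.id (PolyFn.const false) ?_ (fun c h => by rw [h]; rfl) (fun c a t h => by rw [h]; rfl)
  have h1 : PolyFn (fun p : List (List (Option Bool)) × List (Option Bool) ×
      List (List (Option Bool)) => p.2.1) := PolyFn.fst.comp PolyFn.snd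
  have h2 : PolyFn (fun p : List (List (Option Bool)) × List (Option Bool) ×
      List (List (Option Bool)) => p.2.2) := PolyFn.snd.comp PolyFn.snd
  have h3 : PolyFn (fun p : List (List (Option Bool)) × List (Option Bool) ×
      List (List (Option Bool)) => p.2.2.length + 1) := PolyFn.succ (PolyFn.length h2)
  exact poly_decG (PolyFn.capVal h3 (PolyFn.headD (PolyFn.blocks h1) (PolyFn.const [])))
    (PolyFn.zip (PolyFn.range (PolyFn.length h2)) (PolyFn.map
      (f := fun (p : List (List (Option Bool)) × List (Option Bool) ×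
        List (List (Option Bool))) w => parseEdge (p.2.2.length + 1) w)
      (poly_parseEdge (h3.comp PolyFn.fst) PolyFn.snd) h2))

/-! ### The encoding -/

/-- The word of a graph: the number of vertices and the list of edges. -/
def encodeG (n : ℕ) (l : List (ℕ × ℕ)) : List (Option (Option Bool)) :=
  n.bits.map (fun b => some (some b)) ++ l.flatMap fun e => none ::
    (e.1.bits.map (fun b => some (some b)) ++ some none :: e.2.bits.map fun b => some (some b))

theorem blocks_encodeG (n : ℕ) (l : List (ℕ × ℕ)) :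
    blocks (encodeG n l) = n.bits.map some :: l.map fun e =>
      e.1.bits.map some ++ none :: e.2.bits.map some := by
  have key : ∀ (l : List (ℕ × ℕ)) (w : List (Option Bool)),
      blocks (w.map some ++ l.flatMap fun e => none ::
        (e.1.bits.map (fun b => some (some b)) ++ some none ::
          e.2.bits.map fun b => some (some b))) = w :: l.map fun e =>
        e.1.bits.map some ++ none :: e.2.bits.map some := by
    intro l
    induction l with
    | nil => intro w; simp [blocks_some]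
    | cons e l ih =>
      intro w
      rw [List.flatMap_cons, List.cons_append, blocks_cons, List.map_cons]
      have h1 : (e.1.bits.map some ++ none :: e.2.bits.map some).map some =
          e.1.bits.map (fun b => some (some b)) ++ some none ::
            e.2.bits.map fun b => some (some b) := by
        rw [List.map_append, List.map_cons, List.map_map, List.map_map]
        rfl
      rw [← h1, ih]
  unfold encodeG
  rw [← key]
  congr 2
  simp

theorem parseEdge_eq {cap a b : ℕ} (ha : a ≤ cap) (hb : b ≤ cap) :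
    parseEdge cap (a.bits.map some ++ none :: b.bits.map some) = (a, b) := by
  unfold parseEdge
  rw [blocks_cons, blocks_some]
  simp only [List.headD_cons, List.tail_cons, capVal_bits]
  rw [min_eq_left ha, min_eq_left hb]

theorem decW_encodeG {n m : ℕ} {p q : Fin m → Fin n} (hn : n ≤ m + 1) :
    decW (blocks (encodeG n ((List.finRange m).map fun e => ((p e).val, (q e).val)))) =
      decG n (allE p q) := by
  rw [blocks_encodeG]
  unfold decW
  simp only [List.length_map, List.length_finRange]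
  congr 1
  · rw [show n.bits.map some = n.bits.map some from rfl, blocks_some, List.headD_cons,
      capVal_bits, min_eq_left hn]
  · rw [List.map_map, List.map_map]
    have h1 : List.range m = (List.finRange m).map Fin.val := by simp
    rw [h1, List.zip_map', allE]
    apply List.map_congr_left
    intro e _
    simp only [Function.comp_apply]
    rw [parseEdge_eq]
    · rfl
    · have := (p e).isLt; omega
    · have := (q e).isLt; omega

end Pool.Agent.TwoTree
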