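import Pool.Agent.Lib.MP_18867f_lc.Orient

/-!
# Owner assignments as systems of distinct representatives
-/

namespace Pool.Agent.TwoTree

open Finset

/-- A list of sets has distinct representatives. -/
def Sdr {β : Type*} [DecidableEq β] (A : List (Finset β)) : Prop :=
  ∃ L : List β, L.Nodup ∧ List.Forall₂ (fun x a => x ∈ a) L A

section lists

variable {β ι : Type*} [DecidableEq β] [DecidableEq ι]

omit [DecidableEq β] in
theorem forall₂_replicate {a : Finset β} : ∀ {l : List β}, (∀ x ∈ l, x ∈ a) →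
    List.Forall₂ (fun x a => x ∈ a) l (List.replicate l.length a)
  | [], _ => by simp
  | x :: l, h => by
    rw [List.length_cons, List.replicate_succ]
    exact List.Forall₂.cons (h x (by simp)) (forall₂_replicate fun y hy => h y (by simp [hy]))

omit [DecidableEq β] [DecidableEq ι] in
theorem forall₂_flatMap {g : ι → List (Finset β)} {Lz : ι → List β} :
    ∀ {l : List ι}, (∀ z ∈ l, List.Forall₂ (fun x a => x ∈ a) (Lz z) (g z)) →
      List.Forall₂ (fun x a => x ∈ a) (l.flatMap Lz) (l.flatMap g)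
  | [], _ => by simp
  | z :: l, h => by
    rw [List.flatMap_cons, List.flatMap_cons]
    exact List.rel_append (h z (by simp)) (forall₂_flatMap fun y hy => h y (by simp [hy]))

omit [DecidableEq β] in
theorem exists_flatMap {g : ι → List (Finset β)} :
    ∀ {l : List ι} {L : List β}, l.Nodup → List.Forall₂ (fun x a => x ∈ a) L (l.flatMap g) →
      ∃ Lz : ι → List β, L = l.flatMap Lz ∧
        ∀ z ∈ l, List.Forall₂ (fun x a => x ∈ a) (Lz z) (g z)
  | [], L, _, h => by
    rw [List.flatMap_nil] at h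
    rw [List.forall₂_nil_right_iff] at h
    exact ⟨fun _ => [], by simp [h], by simp⟩
  | z :: l, L, hl, h => by
    rw [List.flatMap_cons] at h
    obtain ⟨hz, hl'⟩ := List.nodup_cons.1 hl
    have h1 := List.forall₂_take_append _ _ _ h
    have h2 := List.forall₂_drop_append _ _ _ h
    obtain ⟨Lz, hLz, hLz'⟩ := exists_flatMap hl' h2
    refine ⟨Function.update Lz z (L.take (g z).length), ?_, ?_⟩
    · rw [List.flatMap_cons, Function.update_self]
      have : l.flatMap (Function.update Lz z (L.take (g z).length)) = l.flatMap Lz := by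
        apply List.flatMap_congr
        intro y hy
        rw [Function.update_of_ne]
        rintro rfl
        exact hz hy
      rw [this, ← hLz, List.take_append_drop]
    · intro y hy
      by_cases hyz : y = z
      · subst hyz
        rw [Function.update_self]
        exact h1
      · rw [Function.update_of_ne hyz]
        exact hLz' y ((List.mem_cons.1 hy).resolve_left hyz)

omit [DecidableEq β] [DecidableEq ι] in
theorem exists_forall₂ {P : ι → β → Prop} : ∀ {l : List ι}, (∀ r ∈ l, ∃ e, P r e) →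
    ∃ L : List β, List.Forall₂ (fun e r => P r e) L l
  | [], _ => ⟨[], List.Forall₂.nil⟩
  | r :: l, h => by
    obtain ⟨e, he⟩ := h r (by simp)
    obtain ⟨L, hL⟩ := exists_forall₂ (P := P) (l := l) fun r hr => h r (by simp [hr])
    exact ⟨e :: L, List.Forall₂.cons he hL⟩

omit [DecidableEq β] [DecidableEq ι] in
theorem mem_of_forall₂ {S : β → ι → Prop} {L : List β} {l : List ι} (h : List.Forall₂ S L l)
    {x : β} (hx : x ∈ L) : ∃ r ∈ l, S x r := by
  induction h with
  | nil => simp at hx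
  | cons hab _ ih =>
    rcases List.mem_cons.1 hx with h1 | h1
    · subst h1
      exact ⟨_, by simp, hab⟩
    · obtain ⟨r, hr, hS⟩ := ih h1
      exact ⟨r, by simp [hr], hS⟩

omit [DecidableEq β] [DecidableEq ι] in
theorem nodup_of_forall₂ {S : β → ι → Prop} {L : List β} {l : List ι} (h : List.Forall₂ S L l)
    (hl : l.Nodup) (hS : ∀ e r r', r ∈ l → r' ∈ l → S e r → S e r' → r = r') : L.Nodup := by
  induction h with
  | nil => simp
  | @cons a b L l hab hLl ih =>
    rw [List.nodup_cons] at hl ⊢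
    refine ⟨fun ha => ?_, ih hl.2 fun e r r' hr hr' => hS e r r' (by simp [hr]) (by simp [hr'])⟩
    obtain ⟨r, hr, har⟩ := mem_of_forall₂ hLl ha
    have := hS a b r (by simp) (by simp [hr]) hab har
    subst this
    exact hl.1 hr

end lists

variable {V E : Type*} [Fintype V] [LinearOrder V] [Fintype E] [DecidableEq E]
  {p q : E → V} {s t : V}

theorem card_inside_add (p q : E → V) (Y Z : Finset V) :
    (inside p q Y).card + (inside p q Z).card ≤
      (inside p q (Y ∩ Z)).card + (inside p q (Y ∪ Z)).card := by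
  have h1 : inside p q (Y ∩ Z) = inside p q Y ∩ inside p q Z := by
    ext e
    simp only [mem_inside, mem_inter]
    tauto
  have h2 : inside p q Y ∪ inside p q Z ⊆ inside p q (Y ∪ Z) := by
    intro e he
    simp only [mem_inside, mem_union] at he ⊢
    tauto
  have h3 := Finset.card_union_add_card_inter (inside p q Y) (inside p q Z)
  have h4 := Finset.card_le_card h2
  rw [h1]
  omega

theorem Fam.inter (hsp : Sparse p q) {z : V} {Y Z : Finset V} (hY : Fam p q s t z Y)
    (hZ : Fam p q s t z Z) (h2 : 2 ≤ (Y ∩ Z).card) : Fam p q s t z (Y ∩ Z) := by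
  refine ⟨mem_inter.2 ⟨hY.1, hZ.1⟩, h2, ?_, fun v hv => hY.2.2.2 v (mem_inter.1 hv).1⟩
  have h3 := card_inside_add p q Y Z
  have h4 := hsp (Y ∪ Z) ⟨z, mem_union_left _ hY.1⟩
  have h5 := hsp (Y ∩ Z) ⟨z, mem_inter.2 ⟨hY.1, hZ.1⟩⟩
  have h6 := Finset.card_union_add_card_inter Y Z
  have h7 := hY.2.2.1
  have h8 := hZ.2.2.1
  unfold Tight at h7 h8 ⊢
  omega

/-- `w` lies in some relevant tight set at `z`. -/
def Con (p q : E → V) (s t z w : V) : Prop := ∃ Y, Fam p q s t z Y ∧ w ∈ Y

/-- `w` lies in every relevant tight set at `z` containing `r`. -/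
def Le (p q : E → V) (s t z w r : V) : Prop := ∀ Y, Fam p q s t z Y → r ∈ Y → w ∈ Y

/-- The chosen representatives of the minimal relevant tight sets at `z`. -/
def Rep (p q : E → V) (s t z r : V) : Prop :=
  r ≠ z ∧ Con p q s t z r ∧ ∀ w, w ≠ z → Le p q s t z w r → Le p q s t z r w ∧ r ≤ w

/-- The edges at `z` inside the minimal relevant tight set of `r`. -/
def KProp (p q : E → V) (s t z r : V) (e : E) : Prop :=
  (p e = z ∧ Le p q s t z (q e) r) ∨ (q e = z ∧ Le p q s t z (p e) r)

theorem exists_rep (hsp : Sparse p q) {z : V} {Y : Finset V} (hY : Fam p q s t z Y) :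
    ∃ r ∈ Y, Rep p q s t z r := by
  classical
  obtain ⟨Z, hZ, hmin⟩ := Finset.exists_min_image
    (univ.filter fun Z => Fam p q s t z Z ∧ Z ⊆ Y) (fun Z => Z.card) ⟨Y, by simp [hY]⟩
  simp only [mem_filter, mem_univ, true_and] at hZ hmin
  have hne : (Z.erase z).Nonempty := by
    rw [← Finset.card_pos, Finset.card_erase_of_mem hZ.1.1]
    have := hZ.1.2.1
    omega
  have hr := Finset.min'_mem (Z.erase z) hne
  obtain ⟨r, hrdef⟩ : ∃ r, r = (Z.erase z).min' hne := ⟨_, rfl⟩
  rw [← hrdef, mem_erase] at hr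
  refine ⟨r, hZ.2 hr.2, hr.1, ⟨Z, hZ.1, hr.2⟩, ?_⟩
  intro w hwz hw
  have hwZ : w ∈ Z := hw Z hZ.1 hr.2
  constructor
  · intro Y' hY' hwY'
    have h2 : 2 ≤ (Z ∩ Y').card := by
      have : ({z, w} : Finset V) ⊆ Z ∩ Y' := by
        intro x hx
        simp only [mem_insert, mem_singleton] at hx
        rcases hx with rfl | rfl
        · exact mem_inter.2 ⟨hZ.1.1, hY'.1⟩
        · exact mem_inter.2 ⟨hwZ, hwY'⟩
      have h3 := Finset.card_le_card this
      rwa [Finset.card_pair hwz.symm] at h3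
    have h3 := hmin (Z ∩ Y') ⟨hZ.1.inter hsp hY' h2, inter_subset_left.trans hZ.2⟩
    have h4 : Z ∩ Y' = Z := Finset.eq_of_subset_of_card_le inter_subset_left h3
    have h5 : r ∈ Z ∩ Y' := by rw [h4]; exact hr.2
    exact (mem_inter.1 h5).2
  · rw [hrdef]
    exact Finset.min'_le _ _ (mem_erase.2 ⟨hwz, hwZ⟩)

theorem Owner.exists_KProp (hsp : Sparse p q) {o : E → V} (ho : Owner p q s t o) {z r : V}
    (hr : Rep p q s t z r) : ∃ e, o e = z ∧ KProp p q s t z r e := by
  classical
  obtain ⟨hrz, ⟨Y, hY, hrY⟩, -⟩ := hr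
  obtain ⟨Z, hZ, hmin⟩ := Finset.exists_min_image
    (univ.filter fun Z => Fam p q s t z Z ∧ r ∈ Z) (fun Z => Z.card) ⟨Y, by simp [hY, hrY]⟩
  simp only [mem_filter, mem_univ, true_and] at hZ hmin
  have hle : ∀ w ∈ Z, Le p q s t z w r := by
    intro w hw Y' hY' hrY'
    have h2 : 2 ≤ (Z ∩ Y').card := by
      have : ({z, r} : Finset V) ⊆ Z ∩ Y' := by
        intro x hx
        simp only [mem_insert, mem_singleton] at hx
        rcases hx with rfl | rfl
        · exact mem_inter.2 ⟨hZ.1.1, hY'.1⟩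
        · exact mem_inter.2 ⟨hZ.2, hrY'⟩
      have h3 := Finset.card_le_card this
      rwa [Finset.card_pair hrz.symm] at h3
    have h3 := hmin (Z ∩ Y') ⟨hZ.1.inter hsp hY' h2, mem_inter.2 ⟨hZ.2, hrY'⟩⟩
    have h4 : Z ∩ Y' = Z := Finset.eq_of_subset_of_card_le inter_subset_left h3
    have h5 : w ∈ Z ∩ Y' := by rw [h4]; exact hw
    exact (mem_inter.1 h5).2
  obtain ⟨e, he, hoe⟩ := ho.hit z Z hZ.1
  rw [mem_inside] at he
  refine ⟨e, hoe, ?_⟩
  rcases ho.mem e with h | h
  · exact Or.inl ⟨h.symm.trans hoe, hle _ he.2⟩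
  · exact Or.inr ⟨h.symm.trans hoe, hle _ he.1⟩

theorem Rep.eq_of_KProp (hpq : ∀ e, p e ≠ q e) {z r r' : V} {e : E} (hr : Rep p q s t z r)
    (hr' : Rep p q s t z r') (he : KProp p q s t z r e) (he' : KProp p q s t z r' e) : r = r' := by
  obtain ⟨w, hwz, hw, hw'⟩ : ∃ w, w ≠ z ∧ Le p q s t z w r ∧ Le p q s t z w r' := by
    rcases he with ⟨h1, h2⟩ | ⟨h1, h2⟩ <;> rcases he' with ⟨h3, h4⟩ | ⟨h3, h4⟩
    · exact ⟨q e, fun h => hpq e (h1.trans h.symm), h2, h4⟩
    · exact absurd (h1.trans h3.symm) (hpq e)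
    · exact absurd (h3.trans h1.symm) (hpq e)
    · exact ⟨p e, fun h => hpq e (h.trans h1.symm), h2, h4⟩
  have h1 := (hr.2.2 w hwz hw).1
  have h2 := (hr'.2.2 w hwz hw').1
  have h3 : Le p q s t z r r' := fun Y hY h => h1 Y hY (hw' Y hY h)
  have h4 : Le p q s t z r' r := fun Y hY h => h2 Y hY (hw Y hY h)
  exact le_antisymm (hr.2.2 r' hr'.1 h4).2 (hr'.2.2 r hr.1 h3).2

section main

variable (vs : List V) (reps : V → List V) (K : V → V → Finset E) (δ : V → Finset E)

/-- The slots at a vertex. -/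
def slotsAt (s t : V) (reps : V → List V) (K : V → V → Finset E) (δ : V → Finset E) (z : V) :
    List (Finset E) :=
  (reps z).map (K z) ++ List.replicate (cap s t z - (reps z).length) (δ z)

variable {vs reps K δ}

theorem Owner.sdr (hpq : ∀ e, p e ≠ q e) (hsp : Sparse p q) {o : E → V} (ho : Owner p q s t o)
    (hvs : vs.Nodup) (hreps : ∀ z, (reps z).Nodup) (hreps' : ∀ z r, r ∈ reps z ↔ Rep p q s t z r)
    (hK : ∀ z r e, e ∈ K z r ↔ KProp p q s t z r e) (hδ : ∀ z e, e ∈ δ z ↔ (p e = z ∨ q e = z)) :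
    Sdr (vs.flatMap (slotsAt s t reps K δ)) := by
  classical
  have hex : ∀ z, ∃ Lz : List E, Lz.Nodup ∧ (∀ x ∈ Lz, o x = z) ∧
      List.Forall₂ (fun x a => x ∈ a) Lz (slotsAt s t reps K δ z) := by
    intro z
    obtain ⟨L1, hL1⟩ := exists_forall₂ (P := fun r e => o e = z ∧ e ∈ K z r) (l := reps z)
      (fun r hr => by
        obtain ⟨e, he, he'⟩ := ho.exists_KProp hsp ((hreps' z r).1 hr)
        exact ⟨e, he, (hK z r e).2 he'⟩)
    have hnd : L1.Nodup := nodup_of_forall₂ hL1 (hreps z) (fun e r r' hr hr' h h' =>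
      Rep.eq_of_KProp hpq ((hreps' z r).1 hr) ((hreps' z r').1 hr') ((hK z r e).1 h.2)
        ((hK z r' e).1 h'.2))
    have hlen : L1.length = (reps z).length := hL1.length_eq
    have ho1 : ∀ x ∈ L1, o x = z := by
      intro x hx
      obtain ⟨r, _, hr⟩ := mem_of_forall₂ hL1 hx
      exact hr.1
    have hsub : L1.toFinset ⊆ univ.filter fun e => o e = z := by
      intro x hx
      simpa using ho1 x (by simpa using hx)
    obtain ⟨L2, hL2⟩ : ∃ L2, L2 = ((univ.filter fun e => o e = z) \ L1.toFinset).toList := ⟨_, rfl⟩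
    have hlen2 : L2.length = cap s t z - (reps z).length := by
      rw [hL2, Finset.length_toList, Finset.card_sdiff_of_subset hsub, ho.card,
        List.toFinset_card_of_nodup hnd, hlen]
    have ho2 : ∀ x ∈ L2, o x = z ∧ x ∉ L1 := by
      intro x hx
      rw [hL2, Finset.mem_toList, mem_sdiff] at hx
      exact ⟨by simpa using hx.1, by simpa using hx.2⟩
    refine ⟨L1 ++ L2, ?_, ?_, ?_⟩
    · rw [List.nodup_append']
      refine ⟨hnd, by rw [hL2]; exact Finset.nodup_toList _, ?_⟩
      intro x hx hx'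
      exact (ho2 x hx').2 hx
    · intro x hx
      rcases List.mem_append.1 hx with h | h
      · exact ho1 x h
      · exact (ho2 x h).1
    · unfold slotsAt
      apply List.rel_append
      · rw [List.forall₂_map_right_iff]
        exact hL1.imp fun e r h => h.2
      · rw [← hlen2]
        apply forall₂_replicate
        intro x hx
        rw [hδ]
        have h1 := (ho2 x hx).1
        rcases ho.mem x with h | h
        · exact Or.inl (h.symm.trans h1)
        · exact Or.inr (h.symm.trans h1)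
  choose Lz hLz1 hLz2 hLz3 using hex
  refine ⟨vs.flatMap Lz, ?_, forall₂_flatMap fun z _ => hLz3 z⟩
  rw [List.nodup_flatMap]
  refine ⟨fun z _ => hLz1 z, ?_⟩
  refine hvs.imp ?_
  intro a b hab x hx hx'
  exact hab ((hLz2 a x hx).symm.trans (hLz2 b x hx'))

theorem sum_cap (hst : s ≠ t) : ∑ v : V, cap s t v + 2 = 2 * Fintype.card V := by
  have h1 : ∀ r : V, ∑ v : V, (if v = r then 0 else 1) + 1 = Fintype.card V := by
    intro r
    have h1 : ∑ v : V, ((if v = r then 0 else 1) + (if v = r then 1 else 0)) = Fintype.card V := by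
      rw [Finset.sum_congr rfl (g := fun _ => 1)]
      · simp
      · intro v _; split_ifs <;> rfl
    rw [Finset.sum_add_distrib] at h1
    simpa using h1
  unfold cap
  rw [Finset.sum_add_distrib]
  have h2 := h1 s
  have h3 := h1 t
  omega

theorem exists_owner_of_sdr (hpq : ∀ e, p e ≠ q e) (hsp : Sparse p q) (hst : s ≠ t)
    (hE : Fintype.card E + 2 = 2 * Fintype.card V) (hvs : vs.Nodup) (hvs' : ∀ v, v ∈ vs)
    (hreps' : ∀ z r, r ∈ reps z ↔ Rep p q s t z r)
    (hK : ∀ z r e, e ∈ K z r ↔ KProp p q s t z r e) (hδ : ∀ z e, e ∈ δ z ↔ (p e = z ∨ q e = z))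
    (h : Sdr (vs.flatMap (slotsAt s t reps K δ))) : ∃ o, Owner p q s t o := by
  classical
  obtain ⟨L, hL, hL2⟩ := h
  obtain ⟨Lz, rfl, hLz⟩ := exists_flatMap hvs hL2
  have hlen : ∀ z, cap s t z ≤ (Lz z).length := by
    intro z
    rw [(hLz z (hvs' z)).length_eq]
    unfold slotsAt
    rw [List.length_append, List.length_map, List.length_replicate]
    omega
  have huniv : vs.toFinset = univ := by
    ext v
    simp [hvs' v]
  have hsum : ∀ F : V → ℕ, (vs.map F).sum = ∑ v, F v := by
    intro F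
    rw [← huniv, List.sum_toFinset _ hvs]
  have hLlen : (vs.flatMap Lz).length = ∑ v, (Lz v).length := by
    rw [List.length_flatMap, hsum]
  have hLle : (vs.flatMap Lz).length ≤ Fintype.card E := by
    rw [← List.toFinset_card_of_nodup hL]
    exact Finset.card_le_univ _
  have hcaps := sum_cap (V := V) hst
  have hsumle : ∑ v, cap s t v ≤ ∑ v, (Lz v).length := Finset.sum_le_sum fun v _ => hlen v
  have hLeq : ∀ v, (Lz v).length = cap s t v := by
    intro v
    by_contra hne
    have : ∑ v, cap s t v < ∑ v, (Lz v).length :=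
      Finset.sum_lt_sum (fun v _ => hlen v) ⟨v, mem_univ v, lt_of_le_of_ne (hlen v) (Ne.symm hne)⟩
    omega
  have hall : ∀ e, ∃ z, e ∈ Lz z := by
    intro e
    have h1 : (vs.flatMap Lz).toFinset = univ := by
      apply Finset.eq_univ_of_card
      rw [List.toFinset_card_of_nodup hL]
      omega
    have h2 : e ∈ (vs.flatMap Lz).toFinset := by rw [h1]; exact mem_univ e
    rw [List.mem_toFinset, List.mem_flatMap] at h2
    obtain ⟨z, _, hz⟩ := h2
    exact ⟨z, hz⟩
  choose o ho using hall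
  rw [List.nodup_flatMap] at hL
  have huniq : ∀ e z, e ∈ Lz z → o e = z := by
    intro e z hz
    by_contra hne
    have : Std.Symm (Function.onFun List.Disjoint Lz) := ⟨fun a b hab => List.Disjoint.symm hab⟩
    have h1 := hL.2.forall (hvs' (o e)) (hvs' z) hne
    exact h1 (ho e) hz
  refine ⟨o, ⟨fun e => ?_, fun v => ?_, fun z Y hY => ?_⟩⟩
  · obtain ⟨a, ha, hea⟩ := mem_of_forall₂ (hLz (o e) (hvs' _)) (ho e)
    unfold slotsAt at ha
    rcases List.mem_append.1 ha with h1 | h1
    · rw [List.mem_map] at h1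
      obtain ⟨r, _, rfl⟩ := h1
      rcases (hK _ _ _).1 hea with h2 | h2
      · exact Or.inl h2.1.symm
      · exact Or.inr h2.1.symm
    · have h2 := List.eq_of_mem_replicate h1
      subst h2
      rcases (hδ _ _).1 hea with h2 | h2
      · exact Or.inl h2.symm
      · exact Or.inr h2.symm
  · have h1 : (univ.filter fun e => o e = v) = (Lz v).toFinset := by
      ext e
      simp only [mem_filter, mem_univ, true_and, List.mem_toFinset]
      constructor
      · rintro rfl; exact ho e
      · exact huniq e v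
    rw [h1, List.toFinset_card_of_nodup (hL.1 v (hvs' v)), hLeq]
  · obtain ⟨r, hrY, hr⟩ := exists_rep hsp hY
    have h1 : K z r ∈ slotsAt s t reps K δ z := by
      unfold slotsAt
      exact List.mem_append_left _ (List.mem_map.2 ⟨r, (hreps' z r).2 hr, rfl⟩)
    obtain ⟨x, hx, hxK⟩ := mem_of_forall₂ (S := fun (a : Finset E) x => x ∈ a)
      (hLz z (hvs' z)).flip h1
    refine ⟨x, ?_, huniq x z hx⟩
    rw [mem_inside]
    rcases (hK _ _ _).1 hxK with ⟨h2, h3⟩ | ⟨h2, h3⟩
    · exact ⟨by rw [h2]; exact hY.1, h3 Y hY hrY⟩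
    · exact ⟨h3 Y hY hrY, by rw [h2]; exact hY.1⟩

end main

end Pool.Agent.TwoTree
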