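import Mathlib

/-!
# Directed st-numberings

If every nonempty set of vertices avoiding `s` and `t` has two out-neighbours outside the set, then
the vertices can be numbered so that every vertex different from `s`, `t` lies strictly between two
of its out-neighbours.
-/

namespace Pool.Agent.TwoTree

open Finset

variable {V : Type*} [Fintype V] [DecidableEq V]

/-- Harmonic extension. -/
theorem exists_harmonic (R : V → V → Prop) (Q : Set V)
    (hQ : ∀ X : Set V, X.Nonempty → X ⊆ Q → ∃ v ∈ X, ∃ w, w ∉ X ∧ R v w) (b : V → ℝ) :
    ∃ g : V → ℝ, (∀ v, v ∉ Q → g v = b v) ∧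
      ∀ v ∈ Q, (∀ w, R v w → g w = g v) ∨ ((∃ w, R v w ∧ g w < g v) ∧ ∃ w, R v w ∧ g v < g w) := by
  classical
  obtain ⟨L, hL⟩ : ∃ L : (V → ℝ) →ₗ[ℝ] (V → ℝ), ∀ g v, L g v =
      if v ∈ Q then ∑ w ∈ univ.filter (fun w => R v w), (g w - g v) else g v := by
    refine ⟨{ toFun := fun g v => if v ∈ Q then
      ∑ w ∈ univ.filter (fun w => R v w), (g w - g v) else g v, map_add' := ?_, map_smul' := ?_ },
      fun _ _ => rfl⟩
    · intro g h
      funext v
      simp only [Pi.add_apply]
      split_ifs
      · rw [← Finset.sum_add_distrib]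
        exact Finset.sum_congr rfl fun w _ => by ring
      · rfl
    · intro c g
      funext v
      simp only [Pi.smul_apply, smul_eq_mul, RingHom.id_apply]
      split_ifs
      · rw [Finset.mul_sum]
        exact Finset.sum_congr rfl fun w _ => by ring
      · rfl
  have hle : ∀ g : V → ℝ, L g = 0 → ∀ v, g v ≤ 0 := by
    intro g hg v0
    by_contra hpos
    push Not at hpos
    obtain ⟨m, -, hm⟩ := Finset.exists_max_image (univ : Finset V) g ⟨v0, mem_univ _⟩
    have hmpos : 0 < g m := lt_of_lt_of_le hpos (hm v0 (mem_univ _))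
    have hXQ : {v | g v = g m} ⊆ Q := by
      intro v hv
      by_contra hvQ
      have h1 := congrFun hg v
      rw [hL, if_neg hvQ] at h1
      simp only [Pi.zero_apply] at h1
      rw [Set.mem_setOf_eq, h1] at hv
      exact absurd hv (ne_of_lt hmpos)
    obtain ⟨v, hv, w, hw, hvw⟩ := hQ {v | g v = g m} ⟨m, rfl⟩ hXQ
    have h1 := congrFun hg v
    rw [hL, if_pos (hXQ hv)] at h1
    have h2 : ∀ u ∈ univ.filter (fun w => R v w), g u - g v ≤ 0 := by
      intro u _
      have h3 := hm u (mem_univ _)
      rw [Set.mem_setOf_eq] at hv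
      linarith
    have h4 := (Finset.sum_eq_zero_iff_of_nonpos h2).1 h1 w (by simp [hvw])
    exact hw (by rw [Set.mem_setOf_eq] at hv ⊢; linarith)
  have hinj : Function.Injective L := by
    rw [injective_iff_map_eq_zero]
    intro g hg
    funext v
    have h1 := hle g hg v
    have h2 := hle (-g) (by rw [map_neg, hg, neg_zero]) v
    simp only [Pi.neg_apply] at h2
    simp only [Pi.zero_apply]
    linarith
  obtain ⟨g, hg⟩ := (LinearMap.injective_iff_surjective.1 hinj) (fun v => if v ∈ Q then 0 else b v)
  refine ⟨g, ?_, ?_⟩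
  · intro v hv
    have := congrFun hg v
    rw [hL, if_neg hv, if_neg hv] at this
    exact this
  · intro v hv
    have h1 := congrFun hg v
    rw [hL, if_pos hv, if_pos hv] at h1
    by_cases hall : ∀ w, R v w → g w = g v
    · exact Or.inl hall
    · right
      push Not at hall
      obtain ⟨w, hvw, hne⟩ := hall
      constructor
      · by_contra hcon
        push Not at hcon
        have h2 : ∀ u ∈ univ.filter (fun w => R v w), 0 ≤ g u - g v := by
          intro u hu
          have := hcon u (by simpa using hu)
          linarith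
        have h3 := (Finset.sum_eq_zero_iff_of_nonneg h2).1 h1 w (by simp [hvw])
        exact hne (by linarith)
      · by_contra hcon
        push Not at hcon
        have h2 : ∀ u ∈ univ.filter (fun w => R v w), g u - g v ≤ 0 := by
          intro u hu
          have := hcon u (by simpa using hu)
          linarith
        have h3 := (Finset.sum_eq_zero_iff_of_nonpos h2).1 h1 w (by simp [hvw])
        exact hne (by linarith)

/-- The rank of an element with respect to a pair of functions. -/
theorem exists_lex (f g : V → ℝ) : ∃ h : V → ℝ, ∀ v w, h v < h w ↔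
    (f v < f w ∨ (f v = f w ∧ g v < g w)) := by
  classical
  obtain ⟨r, hr⟩ : ∃ r : V → V → Prop, ∀ v w, r v w ↔ (f v < f w ∨ (f v = f w ∧ g v < g w)) :=
    ⟨_, fun _ _ => Iff.rfl⟩
  have htr : ∀ a b c, r a b → r b c → r a c := by
    intro a b c hab hbc
    rw [hr] at *
    rcases hab with h1 | ⟨h1, h1'⟩ <;> rcases hbc with h2 | ⟨h2, h2'⟩
    · left; linarith
    · left; linarith
    · left; linarith
    · right; exact ⟨by linarith, by linarith⟩
  have hneg : ∀ a b c, r a b → ¬ r c b → r a c := by
    intro a b c hab hcb
    rw [hr] at *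
    push Not at hcb
    obtain ⟨h3, h4⟩ := hcb
    rcases hab with h1 | ⟨h1, h1'⟩
    · left; linarith
    · rcases lt_or_eq_of_le h3 with h5 | h5
      · left; linarith
      · right
        exact ⟨by linarith, lt_of_lt_of_le h1' (h4 h5.symm)⟩
  have hirr : ∀ a, ¬ r a a := by
    intro a h
    rw [hr] at h
    rcases h with h | ⟨_, h⟩ <;> exact lt_irrefl _ h
  refine ⟨fun v => ((univ.filter fun w => r w v).card : ℝ), fun v w => ?_⟩
  rw [← hr, Nat.cast_lt]
  constructor
  · intro h
    by_contra hvw
    have : (univ.filter fun u => r u w) ⊆ (univ.filter fun u => r u v) := by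
      intro u hu
      simp only [mem_filter, mem_univ, true_and] at hu ⊢
      exact hneg u w v hu hvw
    exact absurd (Finset.card_le_card this) (by omega)
  · intro h
    apply Finset.card_lt_card
    rw [Finset.ssubset_iff_of_subset]
    · exact ⟨v, by simpa using h, by simpa using hirr v⟩
    · intro u hu
      simp only [mem_filter, mem_univ, true_and] at hu ⊢
      exact htr u v w hu h

/-- The weak form of a numbering. -/
def WV (R : V → V → Prop) (s t : V) (f : V → ℝ) : Prop :=
  ∀ v, v ≠ s → v ≠ t → (∀ w, R v w → f w = f v) ∨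
    ((∃ w, R v w ∧ f w < f v) ∧ ∃ w, R v w ∧ f v < f w)

/-- Directed st-numbering. -/
theorem exists_numbering (R : V → V → Prop) (s t : V) (hst : s ≠ t)
    (hR : ∀ X : Set V, X.Nonempty → s ∉ X → t ∉ X →
      ∃ v ∈ X, ∃ w, ∃ v' ∈ X, ∃ w', R v w ∧ R v' w' ∧ w ∉ X ∧ w' ∉ X ∧ w ≠ w') :
    ∃ f : V → ℝ, Function.Injective f ∧ ∀ v, v ≠ s → v ≠ t →
      (∃ w, R v w ∧ f w < f v) ∧ ∃ w, R v w ∧ f v < f w := by
  classical
  have key : ∀ k : ℕ, ∀ f : V → ℝ, WV R s t f →
      (univ.filter fun p : V × V => f p.1 = f p.2).card ≤ k →
      ∃ f' : V → ℝ, WV R s t f' ∧ Function.Injective f' := by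
    intro k
    induction k with
    | zero =>
      intro f _ hk
      exfalso
      have : (s, s) ∈ (univ.filter fun p : V × V => f p.1 = f p.2) := by simp
      have h1 := Finset.card_pos.2 ⟨_, this⟩
      omega
    | succ k ih =>
      intro f hf hk
      by_cases hinj : Function.Injective f
      · exact ⟨f, hf, hinj⟩
      · unfold Function.Injective at hinj
        push Not at hinj
        obtain ⟨u, u', huu, hne⟩ := hinj
        obtain ⟨Q, hQ⟩ : ∃ Q : Set V, Q = {v | f v = f u ∧ v ≠ s ∧ v ≠ t ∧
          ∀ w, R v w → f w = f v} := ⟨_, rfl⟩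
        -- two elements of the class outside `Q`
        obtain ⟨t0, t1, ht0, ht1, ht0Q, ht1Q, ht01⟩ : ∃ t0 t1, f t0 = f u ∧ f t1 = f u ∧
            t0 ∉ Q ∧ t1 ∉ Q ∧ t0 ≠ t1 := by
          by_cases hQe : Q.Nonempty
          · obtain ⟨v, hv, w, v', hv', w', h1, h2, h3, h4, h5⟩ := hR Q hQe
              (by rw [hQ]; exact fun h => h.2.1 rfl) (by rw [hQ]; exact fun h => h.2.2.1 rfl)
            have hv2 := hv
            have hv2' := hv'
            rw [hQ] at hv2 hv2'
            exact ⟨w, w', (hv2.2.2.2 w h1).trans hv2.1, (hv2'.2.2.2 w' h2).trans hv2'.1, h3, h4, h5⟩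
          · rw [Set.not_nonempty_iff_eq_empty] at hQe
            exact ⟨u, u', rfl, huu.symm, by simp [hQe], by simp [hQe], hne⟩
        obtain ⟨g, hg1, hg2⟩ := exists_harmonic R Q (by
          intro X hX hXQ
          obtain ⟨v, hv, w, v', hv', w', h1, h2, h3, h4, h5⟩ := hR X hX
            (fun h => by have := hXQ h; rw [hQ] at this; exact this.2.1 rfl)
            (fun h => by have := hXQ h; rw [hQ] at this; exact this.2.2.1 rfl)
          exact ⟨v, hv, w, h3, h1⟩) (fun v => if v = t0 then 1 else 0)
        obtain ⟨h, hh⟩ := exists_lex f g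
        have heq : ∀ v w, h v = h w ↔ f v = f w ∧ g v = g w := by
          intro v w
          have h1 := hh v w
          have h2 := hh w v
          constructor
          · intro hvw
            have h3 : ¬ (f v < f w ∨ (f v = f w ∧ g v < g w)) := fun h' => by
              have := h1.2 h'; linarith
            have h4 : ¬ (f w < f v ∨ (f w = f v ∧ g w < g v)) := fun h' => by
              have := h2.2 h'; linarith
            push Not at h3 h4
            have h5 : f v = f w := le_antisymm h4.1 h3.1
            exact ⟨h5, le_antisymm (h4.2 h5.symm) (h3.2 h5)⟩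
          · rintro ⟨h3, h4⟩
            apply le_antisymm
            · by_contra hcon
              push Not at hcon
              rcases h2.1 hcon with h5 | ⟨_, h5⟩ <;> linarith
            · by_contra hcon
              push Not at hcon
              rcases h1.1 hcon with h5 | ⟨_, h5⟩ <;> linarith
        refine ih h ?_ ?_
        · intro v hvs hvt
          rcases hf v hvs hvt with hall | ⟨⟨w, hw, hw'⟩, ⟨x, hx, hx'⟩⟩
          · by_cases hvu : f v = f u
            · have hvQ : v ∈ Q := by
                rw [hQ]
                exact ⟨hvu, hvs, hvt, hall⟩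
              rcases hg2 v hvQ with h1 | ⟨⟨w, hw, hw'⟩, ⟨x, hx, hx'⟩⟩
              · left
                intro w hw
                rw [heq]
                exact ⟨hall w hw, h1 w hw⟩
              · right
                exact ⟨⟨w, hw, (hh w v).2 (Or.inr ⟨hall w hw, hw'⟩)⟩,
                  ⟨x, hx, (hh v x).2 (Or.inr ⟨(hall x hx).symm, hx'⟩)⟩⟩
            · left
              have hz : ∀ y, f y ≠ f u → g y = 0 := by
                intro y hy
                rw [hg1 y (by rw [hQ]; exact fun h => hy h.1)]
                rw [if_neg]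
                rintro rfl
                exact hy ht0
              intro w hw
              rw [heq]
              exact ⟨hall w hw, by rw [hz v hvu, hz w (by rw [hall w hw]; exact hvu)]⟩
          · right
            exact ⟨⟨w, hw, (hh w v).2 (Or.inl hw')⟩, ⟨x, hx, (hh v x).2 (Or.inl hx')⟩⟩
        · have hlt : (univ.filter fun p : V × V => h p.1 = h p.2).card <
              (univ.filter fun p : V × V => f p.1 = f p.2).card := by
            apply Finset.card_lt_card
            rw [Finset.ssubset_iff_of_subset]
            · refine ⟨(t0, t1), ?_, ?_⟩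
              · simp [ht0, ht1]
              · simp only [mem_filter, mem_univ, true_and]
                rw [heq, hg1 t0 ht0Q, hg1 t1 ht1Q, if_pos rfl, if_neg ht01.symm]
                rintro ⟨_, h1⟩
                exact one_ne_zero h1
            · intro p hp
              simp only [mem_filter, mem_univ, true_and] at hp ⊢
              exact ((heq _ _).1 hp).1
          omega
  obtain ⟨f, hf, hinj⟩ := key _ (fun _ => 0) (fun v _ _ => Or.inl fun _ _ => rfl) le_rfl
  refine ⟨f, hinj, fun v hvs hvt => ?_⟩
  rcases hf v hvs hvt with hall | h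
  · exfalso
    obtain ⟨v', hv', w, v'', hv'', w', h1, h2, h3, h4, h5⟩ := hR {v} ⟨v, rfl⟩
      (by simpa using hvs.symm) (by simpa using hvt.symm)
    rw [Set.mem_singleton_iff] at hv'
    subst hv'
    exact h3 (by rw [Set.mem_singleton_iff]; exact hinj (hall w h1))
  · exact h

end Pool.Agent.TwoTree
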