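import Pool.Agent.Lib.MP_18867f_lc.Slots
import Pool.Agent.Lib.PolyTime.Extra

/-!
# Testing for tight sets
-/

namespace Pool.Agent.TwoTree

open Pool.Agent.PolyTime Finset

/-- The two places at `v`, unless `v = z`. -/
def vslots (z v : ℕ) : List ℕ := if v = z then [] else [2 * v, 2 * v + 1]

/-- The places at the ends of an edge. -/
def eslots (z : ℕ) (e : ℕ × ℕ × ℕ) : List ℕ := vslots z e.2.1 ++ vslots z e.2.2

/-- The edges avoiding `B`. -/
def avoid (B : List ℕ) (es : List (ℕ × ℕ × ℕ)) : List (ℕ × ℕ × ℕ) :=
  es.filter fun e => !decide (e.2.1 ∈ B) && !decide (e.2.2 ∈ B)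

/-- Is there a tight set containing `z` and `w` and avoiding `B`? -/
def tightTest (n : ℕ) (es : List (ℕ × ℕ × ℕ)) (B : List ℕ) (z w : ℕ) : Bool :=
  !decide (z ∈ B) && (!decide (w ∈ B) &&
    !sdr (List.range (2 * n)) (vslots z w :: (avoid B es).map fun e => eslots z e))

theorem mem_vslots {z v x : ℕ} : x ∈ vslots z v ↔ v ≠ z ∧ (x = 2 * v ∨ x = 2 * v + 1) := by
  unfold vslots
  split_ifs with h
  · simp [h]
  · simp [h]

variable {n m : ℕ} {p q : Fin m → Fin n}

/-- The list of edges. -/
def tri (p q : Fin m → Fin n) (e : Fin m) : ℕ × ℕ × ℕ := (e.val, (p e).val, (q e).val)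

/-- The items: the extra edge (`none`) and the edges avoiding `B`. -/
def items (p q : Fin m → Fin n) (B : List ℕ) : List (Option (Fin m)) :=
  none :: ((List.finRange m).filter fun e =>
    !decide ((p e).val ∈ B) && !decide ((q e).val ∈ B)).map some

/-- The places of an item. -/
def places (p q : Fin m → Fin n) (z w : ℕ) : Option (Fin m) → List ℕ
  | none => vslots z w
  | some e => vslots z (p e).val ++ vslots z (q e).val

theorem items_nodup (B : List ℕ) : (items p q B).Nodup := by
  unfold items
  rw [List.nodup_cons]
  refine ⟨by simp, ?_⟩
  exact List.Nodup.map (Option.some_injective _) ((List.nodup_finRange m).filter _)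

theorem mem_items {B : List ℕ} {e : Fin m} :
    some e ∈ items p q B ↔ (p e).val ∉ B ∧ (q e).val ∉ B := by
  unfold items
  simp

theorem items_map (B : List ℕ) (z w : ℕ) :
    (vslots z w :: (avoid B ((List.finRange m).map (tri p q))).map fun e => eslots z e) =
      (items p q B).map (places p q z w) := by
  unfold items avoid
  rw [List.map_cons, List.filter_map, List.map_map, List.map_map]
  rfl

theorem tightTest_iff (hsp : Sparse p q) {z w : Fin n} (hzw : z ≠ w) (B : List ℕ) :
    tightTest n ((List.finRange m).map (tri p q)) B z.val w.val = true ↔
      ∃ Y : Finset (Fin n), z ∈ Y ∧ w ∈ Y ∧ Tight p q Y ∧ ∀ v ∈ Y, v.val ∉ B := by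
  classical
  unfold tightTest
  rw [items_map]
  simp only [Bool.and_eq_true, Bool.not_eq_true', decide_eq_false_iff_not]
  rw [← Bool.not_eq_true, sdr_map_iff (items_nodup B)]
  · constructor
    · rintro ⟨hzB, hwB, hno⟩
      by_contra hcon
      apply hno
      apply exists_fun_of_hall
      intro S hS
      by_contra hlt
      push Not at hlt
      obtain ⟨W, hW⟩ : ∃ W, W = S.biUnion fun x => (places p q z.val w.val x).toFinset := ⟨_, rfl⟩
      rw [← hW] at hlt
      have hmemW : ∀ x, x ∈ W ↔ ∃ i ∈ S, x ∈ places p q z.val w.val i := by
        intro x
        rw [hW, mem_biUnion]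
        simp only [List.mem_toFinset]
      obtain ⟨X, hX⟩ : ∃ X : Finset (Fin n), X = univ.filter fun v =>
          v ≠ z ∧ ∃ i ∈ S, 2 * v.val ∈ places p q z.val w.val i := ⟨_, rfl⟩
      have hzX : z ∉ X := by rw [hX]; simp
      -- both places of the vertices of `X` are in `W`
      have hcard : 2 * X.card ≤ W.card := by
        have h1 : (X ×ˢ (univ : Finset Bool)).card ≤ W.card := by
          apply Finset.card_le_card_of_injOn (fun x => 2 * x.1.val + x.2.toNat)
          · rintro ⟨v, b⟩ hv
            simp only [coe_product, Set.mem_prod, mem_coe, mem_univ, and_true] at hv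
            rw [hX] at hv
            simp only [mem_filter, mem_univ, true_and] at hv
            obtain ⟨hvz, i, hi, hvi⟩ := hv
            rw [mem_coe, hmemW]
            refine ⟨i, hi, ?_⟩
            have hsymm : ∀ u : ℕ, 2 * v.val ∈ vslots z.val u →
                2 * v.val + b.toNat ∈ vslots z.val u := by
              intro u hu
              rw [mem_vslots] at hu ⊢
              refine ⟨hu.1, ?_⟩
              cases b
              · simpa using hu.2
              · simp only [Bool.toNat_true]
                omega
            cases i with
            | none => exact hsymm _ hvi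
            | some e =>
              unfold places at hvi ⊢
              rcases List.mem_append.1 hvi with h | h
              · exact List.mem_append_left _ (hsymm _ h)
              · exact List.mem_append_right _ (hsymm _ h)
          · rintro ⟨v, b⟩ _ ⟨v', b'⟩ _ h
            dsimp only at h
            have h1 : v.val = v'.val := by
              cases b <;> cases b' <;> simp only [Bool.toNat_true, Bool.toNat_false] at h <;> omega
            have h2 : b = b' := by
              cases b <;> cases b' <;> simp only [Bool.toNat_true, Bool.toNat_false] at h <;>
                first | rfl | omega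
            rw [Prod.mk.injEq]
            exact ⟨Fin.ext h1, h2⟩
        rw [Finset.card_product] at h1
        simp only [Finset.card_univ, Fintype.card_bool] at h1
        omega
      have hmemX : ∀ v : Fin n, v ≠ z → (∃ i ∈ S, 2 * v.val ∈ places p q z.val w.val i) → v ∈ X := by
        intro v hv hi
        rw [hX]
        simp only [mem_filter, mem_univ, true_and]
        exact ⟨hv, hi⟩
      have hend : ∀ e, some e ∈ S → p e ∈ insert z X ∧ q e ∈ insert z X := by
        intro e he
        constructor
        · by_cases hz : p e = z
          · rw [hz]; exact mem_insert_self _ _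
          · refine mem_insert_of_mem (hmemX _ hz ⟨some e, he, ?_⟩)
            exact List.mem_append_left _ (mem_vslots.2 ⟨fun h => hz (Fin.ext h), Or.inl rfl⟩)
        · by_cases hz : q e = z
          · rw [hz]; exact mem_insert_self _ _
          · refine mem_insert_of_mem (hmemX _ hz ⟨some e, he, ?_⟩)
            exact List.mem_append_right _ (mem_vslots.2 ⟨fun h => hz (Fin.ext h), Or.inl rfl⟩)
      have hSsub : S.erase none ⊆ (inside p q (insert z X)).map Function.Embedding.some := by
        intro i hi
        rw [mem_erase] at hi
        cases i with
        | none => exact absurd rfl hi.1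
        | some e =>
          rw [mem_map]
          exact ⟨e, mem_inside.2 (hend e hi.2), rfl⟩
      have hSc := Finset.card_le_card hSsub
      rw [Finset.card_map] at hSc
      have hYc : (insert z X).card = X.card + 1 := Finset.card_insert_of_notMem hzX
      have hspY := hsp (insert z X) ⟨z, mem_insert_self _ _⟩
      have hnone : none ∈ S := by
        by_contra h
        rw [Finset.erase_eq_of_notMem h] at hSc
        omega
      rw [Finset.card_erase_of_mem hnone] at hSc
      apply hcon
      refine ⟨insert z X, mem_insert_self _ _, ?_, ?_, ?_⟩
      · refine mem_insert_of_mem (hmemX _ hzw.symm ⟨none, hnone, ?_⟩)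
        exact mem_vslots.2 ⟨fun h => hzw (Fin.ext h.symm), Or.inl rfl⟩
      · unfold Tight
        omega
      · intro v hv
        rcases mem_insert.1 hv with rfl | hv
        · exact hzB
        · rw [hX] at hv
          simp only [mem_filter, mem_univ, true_and] at hv
          obtain ⟨_, i, hi, hvi⟩ := hv
          cases i with
          | none =>
            have := mem_vslots.1 hvi
            have h1 : v.val = w.val := by omega
            rw [h1]; exact hwB
          | some e =>
            have hie := mem_items.1 (hS _ hi)
            unfold places at hvi
            rcases List.mem_append.1 hvi with h | h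
            · have := mem_vslots.1 h
              have h1 : v.val = (p e).val := by omega
              rw [h1]; exact hie.1
            · have := mem_vslots.1 h
              have h1 : v.val = (q e).val := by omega
              rw [h1]; exact hie.2
    · rintro ⟨Y, hzY, hwY, htight, hYB⟩
      refine ⟨hYB z hzY, hYB w hwY, ?_⟩
      rintro ⟨f, hf, hinj⟩
      obtain ⟨I, hI⟩ : ∃ I : Finset (Option (Fin m)),
          I = insert none ((inside p q Y).map Function.Embedding.some) := ⟨_, rfl⟩
      have hIc : I.card = (inside p q Y).card + 1 := by
        rw [hI, Finset.card_insert_of_notMem (by simp), Finset.card_map]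
      have hIitems : ∀ i ∈ I, i ∈ items p q B := by
        intro i hi
        rw [hI, mem_insert] at hi
        rcases hi with rfl | hi
        · unfold items; simp
        · obtain ⟨e, he, rfl⟩ := mem_map.1 hi
          rw [mem_inside] at he
          exact mem_items.2 ⟨hYB _ he.1, hYB _ he.2⟩
      obtain ⟨W, hW⟩ : ∃ W : Finset ℕ,
          W = (Y.erase z).biUnion fun v => {2 * v.val, 2 * v.val + 1} := ⟨_, rfl⟩
      have hWc : W.card ≤ 2 * (Y.card - 1) := by
        rw [hW]
        refine (Finset.card_biUnion_le).trans ?_
        rw [← Finset.card_erase_of_mem hzY, mul_comm, ← smul_eq_mul, ← Finset.sum_const]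
        exact Finset.sum_le_sum fun v _ => Finset.card_le_two
      have hvW : ∀ v : Fin n, v ∈ Y → ∀ x, x ∈ vslots z.val v.val → x ∈ W := by
        intro v hv x hx
        rw [mem_vslots] at hx
        rw [hW, mem_biUnion]
        exact ⟨v, mem_erase.2 ⟨fun h => hx.1 (by rw [h]), hv⟩, by simpa using hx.2⟩
      have hle : I.card ≤ W.card := by
        apply Finset.card_le_card_of_injOn f
        · intro i hi
          rw [mem_coe] at hi ⊢
          have h1 := hf i (hIitems i hi)
          rw [hI, mem_insert] at hi
          rcases hi with rfl | hi
          · exact hvW w hwY _ h1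
          · obtain ⟨e, he, rfl⟩ := mem_map.1 hi
            rw [mem_inside] at he
            rcases List.mem_append.1 h1 with h | h
            · exact hvW _ he.1 _ h
            · exact hvW _ he.2 _ h
        · intro i hi j hj hij
          rw [mem_coe] at hi hj
          exact hinj i (hIitems i hi) j (hIitems j hj) hij
      have hYpos : 0 < Y.card := Finset.card_pos.2 ⟨z, hzY⟩
      unfold Tight at htight
      omega
  · intro i _ x hx
    rw [List.mem_range]
    cases i with
    | none =>
      have := mem_vslots.1 hx
      have := w.isLt
      omega
    | some e =>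
      rcases List.mem_append.1 hx with h | h
      · have := mem_vslots.1 h
        have := (p e).isLt
        omega
      · have := mem_vslots.1 h
        have := (q e).isLt
        omega

end Pool.Agent.TwoTree
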